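import Pool.Agent.L0h51.AB.Law

/-! The least constant over `N`. -/

set_option autoImplicit false
set_option maxHeartbeats 400000

namespace Pool.Agent.L0h51.AB

open Finset Polynomial Filter Topology

variable {A B : ℤ[X]}

/-- the bound holds for all parameters of a set -/
def Bd (A B : ℤ[X]) (Φ : Set ℚ) (y : ℝ) : Prop :=
  ∀ t ∈ Φ, ∀ τ : UpperHalfPlane, jInv τ = ((J A B t : ℚ) : ℂ) → hone (J A B t) τ ≤ y

/-- the least constant -/
noncomputable def cc (A B : ℤ[X]) (Φ : Set ℚ) : ℝ := sInf {y : ℝ | 0 ≤ y ∧ Bd A B Φ y}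

theorem best_eq (N : ℕ) : best A B N = cc A B (T A B N) := by
  unfold best cc
  congr 1
  ext y
  exact and_congr_right fun _ => bounded_iff

theorem cc_le {Φ : Set ℚ} {y : ℝ} (h0 : 0 ≤ y) (h : Bd A B Φ y) : cc A B Φ ≤ y :=
  csInf_le ⟨0, fun _ hx => hx.1⟩ ⟨h0, h⟩

theorem cc_nonneg (Φ : Set ℚ) : 0 ≤ cc A B Φ := Real.sInf_nonneg fun _ hx => hx.1

theorem ThreePoles.bd_ex (h : ThreePoles A B) {Φ : Set ℚ} (hΦ : Φ.Finite) :
    ∃ y : ℝ, 0 ≤ y ∧ Bd A B Φ y := by
  obtain ⟨K, hK, h1⟩ := h.hone_le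
  rcases Φ.eq_empty_or_nonempty with rfl | hne
  · exact ⟨0, le_rfl, fun t ht => absurd ht (Set.notMem_empty _)⟩
  · obtain ⟨t₀, -, ht₀⟩ := Set.exists_max_image Φ hh hΦ hne
    refine ⟨K * (1 + hh t₀), mul_nonneg hK.le (by linarith [hh_nonneg t₀]), fun t ht τ hτ => ?_⟩
    exact (h1 t τ hτ).trans (mul_le_mul_of_nonneg_left (by linarith [ht₀ t ht]) hK.le)

theorem ThreePoles.cc_spec (h : ThreePoles A B) {Φ : Set ℚ} (hΦ : Φ.Finite) :
    Bd A B Φ (cc A B Φ) := by
  intro t ht τ hτ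
  obtain ⟨y, hy⟩ := h.bd_ex hΦ
  exact le_csInf ⟨y, hy⟩ fun z hz => hz.2 t ht τ hτ

theorem ThreePoles.cc_log (h : ThreePoles A B) : ∃ K : ℝ, 1 ≤ K ∧ ∀ Φ : Finset ℚ,
    Real.log (1 + cc A B (Φ : Set ℚ)) ≤ K * (1 + ∑ t ∈ Φ, size t) := by
  obtain ⟨K, hK, h1⟩ := h.hone_le
  have hl : 0 ≤ Real.log (1 + K) := Real.log_nonneg (by linarith)
  refine ⟨1 + Real.log (1 + K), by linarith, fun Φ => ?_⟩
  have hS : 0 ≤ ∑ t ∈ Φ, size t := sum_nonneg fun t _ => size_nonneg t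
  rcases Φ.eq_empty_or_nonempty with rfl | hne
  · have h2 : cc A B ((∅ : Finset ℚ) : Set ℚ) ≤ 0 := cc_le le_rfl fun t ht => by
      rw [Finset.coe_empty] at ht
      exact absurd ht (Set.notMem_empty _)
    have h3 : cc A B ((∅ : Finset ℚ) : Set ℚ) = 0 := le_antisymm h2 (cc_nonneg _)
    rw [h3, add_zero, Real.log_one]
    positivity
  · obtain ⟨t₀, ht₀, hmax⟩ := Finset.exists_max_image Φ hh hne
    have hh0 := hh_nonneg t₀
    have h2 : cc A B (Φ : Set ℚ) ≤ K * (1 + hh t₀) := by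
      refine cc_le (mul_nonneg hK.le (by linarith)) fun t ht τ hτ => ?_
      exact (h1 t τ hτ).trans (mul_le_mul_of_nonneg_left (by linarith [hmax t (by exact_mod_cast ht)]) hK.le)
    have h3 : 1 + cc A B (Φ : Set ℚ) ≤ (1 + K) * (3 + hh t₀) := by nlinarith
    have h4 : Real.log (1 + cc A B (Φ : Set ℚ)) ≤ Real.log (1 + K) + size t₀ := by
      rw [size_eq, ← Real.log_mul (by linarith) (by linarith)]
      exact Real.log_le_log (by linarith [cc_nonneg (A := A) (B := B) (Φ : Set ℚ)]) h3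
    have h5 : size t₀ ≤ ∑ t ∈ Φ, size t :=
      Finset.single_le_sum (f := size) (fun t _ => size_nonneg t) ht₀
    nlinarith

/-- the least constant is attained -/
theorem ThreePoles.best_spec (h : ThreePoles A B) {N : ℕ} (hN : 0 < N) :
    0 ≤ best A B N ∧ Bounded A B N (best A B N) := by
  rw [best_eq]
  exact ⟨cc_nonneg _, bounded_iff.2 (h.cc_spec (h.law.1 N hN))⟩

theorem ncard_prop (P : ℕ → Prop) (X : ℕ) :
    ({N : ℕ | 1 ≤ N ∧ N ≤ X ∧ P N}.ncard : ℝ) / X = prop P X := by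
  classical
  rw [prop_def]
  congr 2
  have h1 : {N : ℕ | 1 ≤ N ∧ N ≤ X ∧ P N} = (((Icc 1 X).filter P : Finset ℕ) : Set ℕ) := by
    ext N
    rw [Finset.mem_coe, mem_filter, mem_Icc]
    exact (and_assoc).symm
  rw [h1, Set.ncard_coe_finset]

/-- the law of the least constant -/
theorem ThreePoles.best_law (h : ThreePoles A B) (U : Set ℝ) : ∃ d : ℝ,
    Tendsto (prop (fun N => best A B N ∈ U)) atTop (𝓝 d) := by
  classical
  obtain ⟨-, μ, -, -, hμ⟩ := h.law
  obtain ⟨-, h1⟩ := hμ 0 1 (fun Φ => if cc A B Φ ∈ U then 1 else 0) (fun Φ => by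
    split_ifs <;> simp)
  refine ⟨_, h1.congr fun X => ?_⟩
  rw [prop_def, sum_boole]
  congr 3
  refine filter_congr fun N _ => ?_
  rw [best_eq]

theorem ThreePoles.best_moments (h : ThreePoles A B) (k : ℕ) : ∃ M : ℝ,
    Tendsto (fun X : ℕ => (∑ N ∈ Icc 1 X, Real.log (1 + best A B N) ^ k) / X) atTop (𝓝 M) := by
  obtain ⟨-, μ, -, -, hμ⟩ := h.law
  obtain ⟨K, hK, h0⟩ := h.cc_log
  obtain ⟨-, h1⟩ := hμ k (K ^ k) (fun Φ => Real.log (1 + cc A B Φ) ^ k) (fun Φ => by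
    have h2 : 0 ≤ Real.log (1 + cc A B (Φ : Set ℚ)) :=
      Real.log_nonneg (by linarith [cc_nonneg (A := A) (B := B) (Φ : Set ℚ)])
    rw [abs_of_nonneg (pow_nonneg h2 _), ← mul_pow]
    exact pow_le_pow_left₀ h2 (h0 Φ) _)
  refine ⟨_, h1.congr fun X => ?_⟩
  congr 1
  refine sum_congr rfl fun N _ => ?_
  rw [best_eq]

/-- **The effective tail.** -/
theorem ThreePoles.tail (h : ThreePoles A B) : ∃ C : ℝ, 0 < C ∧ ∀ ε : ℝ, 0 < ε → ε ≤ 1 → ∀ X : ℕ,
    prop (fun N => Real.exp (C * (1 + Real.log (1 / ε)) ^ 6) < best A B N) X ≤ ε := by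
  classical
  obtain ⟨D, hD⟩ := h.few (1 / 6) (by norm_num)
  obtain ⟨K, hK, hK1⟩ := h.hone_le
  have e : (2 / 3 + 1 / 6 : ℝ) = 5 / 6 := by norm_num
  rw [e] at hD
  have hsum := hD.summable (s := 11 / 12) (by norm_num)
  set Z : ℝ := ∑' t, (mm A B t : ℝ) ^ (-(11 / 12 : ℝ)) with hZ
  have hZ0 : 0 ≤ Z := tsum_nonneg fun t => by positivity
  have hM : (1 : ℝ) ≤ MM A := by exact_mod_cast h.MM_pos
  set a : ℝ := 1 + Real.log (MM A) + 12 * Real.log (1 + Z) with ha
  have hlM := Real.log_nonneg hM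
  have hlZ : 0 ≤ Real.log (1 + Z) := Real.log_nonneg (by linarith)
  have ha0 : 1 ≤ a := by rw [ha]; linarith
  refine ⟨Real.log (2 * K + 1) + 3000 * (a + 12) ^ 6, ?_, fun ε hε hε1 X => ?_⟩
  · have h1 : 0 ≤ Real.log (2 * K + 1) := Real.log_nonneg (by linarith)
    positivity
  set lε : ℝ := Real.log (1 / ε) with hlε
  have hlε0 : 0 ≤ lε := Real.log_nonneg (by rw [le_div_iff₀ hε]; linarith)
  set R : ℝ := ((1 + Z) / ε) ^ 12 with hR
  have hbase : 1 ≤ (1 + Z) / ε := by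
    rw [le_div_iff₀ hε]
    linarith
  have hR1 : 1 ≤ R := one_le_pow₀ hbase
  have hR0 : 0 < R := by linarith
  have hlR : Real.log R = 12 * Real.log (1 + Z) + 12 * lε := by
    rw [hR, Real.log_pow, hlε, Real.log_div (by linarith) hε.ne', one_div, Real.log_inv]
    push_cast
    ring
  have h1 : ∀ N, 0 < N → Real.exp ((Real.log (2 * K + 1) + 3000 * (a + 12) ^ 6) * (1 + lε) ^ 6) <
      best A B N → ∃ i ∈ {t : Idx B | R < mm A B t}, mm A B i ∣ N := by
    intro N hN hlt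
    by_contra hcon
    push Not at hcon
    refine absurd hlt (not_lt.2 ?_)
    rw [best_eq]
    refine cc_le (Real.exp_pos _).le fun t ht τ hτ => ?_
    obtain ⟨ht1, ht2⟩ := mem_T.1 ht
    have h2 : ¬ R < mj (J A B t) := fun h3 => hcon ⟨t, ht1⟩ h3 ht2
    have h3 := h.hh_le ht1 (not_lt.1 h2)
    rw [hlR, ← add_assoc, ← ha] at h3
    have h4 : (a + 12 * lε) ^ 6 ≤ (a + 12) ^ 6 * (1 + lε) ^ 6 := by
      rw [← mul_pow]
      refine pow_le_pow_left₀ (by positivity) ?_ 6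
      nlinarith
    have h5 : hh t ≤ Real.exp (3000 * (a + 12) ^ 6 * (1 + lε) ^ 6) := by
      refine h3.trans (Real.exp_le_exp.2 ?_)
      rw [mul_assoc]
      exact mul_le_mul_of_nonneg_left h4 (by norm_num)
    have h6 : 1 ≤ Real.exp (3000 * (a + 12) ^ 6 * (1 + lε) ^ 6) :=
      Real.one_le_exp (by positivity)
    have h7 : 2 * K + 1 ≤ Real.exp (Real.log (2 * K + 1) * (1 + lε) ^ 6) := by
      have h8 : 1 ≤ (1 + lε) ^ 6 := one_le_pow₀ (by linarith)
      have h9 : 0 ≤ Real.log (2 * K + 1) := Real.log_nonneg (by linarith)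
      calc 2 * K + 1 = Real.exp (Real.log (2 * K + 1)) := (Real.exp_log (by linarith)).symm
        _ ≤ _ := Real.exp_le_exp.2 (by nlinarith)
    refine (hK1 t τ hτ).trans ?_
    rw [add_mul, Real.exp_add]
    calc K * (1 + hh t) ≤ (2 * K + 1) * Real.exp (3000 * (a + 12) ^ 6 * (1 + lε) ^ 6) := by
          nlinarith
      _ ≤ _ := mul_le_mul_of_nonneg_right h7 (by positivity)
  refine (prop_mono h1 X).trans ?_
  -- the sum over the large moduli
  have hJ := hD.prop_le (by norm_num) {t : Idx B | R < mm A B t} X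
  refine hJ.trans ?_
  refine (Summable.tsum_le_tsum (g := fun t : {t : Idx B | R < mm A B t} =>
    R ^ (-(1 / 12 : ℝ)) * (mm A B t.1 : ℝ) ^ (-(11 / 12 : ℝ))) (fun t => ?_)
    ((hD.summable_inv (by norm_num)).subtype _) ((hsum.subtype _).mul_left _)).trans ?_
  · have hm : (0 : ℝ) < mm A B t.1 := by exact_mod_cast mj_pos _
    have e1 : ((mm A B t.1 : ℝ))⁻¹ = (mm A B t.1 : ℝ) ^ (-(1 / 12 : ℝ)) *
        (mm A B t.1 : ℝ) ^ (-(11 / 12 : ℝ)) := by
      rw [← Real.rpow_add hm, ← Real.rpow_neg_one]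
      congr 1
      norm_num
    show ((mm A B t.1 : ℝ))⁻¹ ≤ _
    rw [e1]
    refine mul_le_mul_of_nonneg_right ?_ (by positivity)
    rw [Real.rpow_neg hm.le, Real.rpow_neg hR0.le]
    exact inv_anti₀ (by positivity) (Real.rpow_le_rpow hR0.le (le_of_lt t.2) (by norm_num))
  · rw [tsum_mul_left]
    have h2 : ∑' t : {t : Idx B | R < mm A B t}, (mm A B t.1 : ℝ) ^ (-(11 / 12 : ℝ)) ≤ Z :=
      Summable.tsum_subtype_le (fun t => (mm A B t : ℝ) ^ (-(11 / 12 : ℝ))) _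
        (fun t => by positivity) hsum
    have h3 : R ^ (-(1 / 12 : ℝ)) = ε / (1 + Z) := by
      have h4 : (0 : ℝ) ≤ (1 + Z) / ε := by linarith
      rw [hR, ← Real.rpow_natCast, ← Real.rpow_mul h4]
      have h5 : ((12 : ℕ) : ℝ) * -(1 / 12 : ℝ) = -1 := by norm_num
      rw [h5, Real.rpow_neg_one, inv_div]
    rw [h3]
    calc ε / (1 + Z) * ∑' t : {t : Idx B | R < mm A B t}, (mm A B t.1 : ℝ) ^ (-(11 / 12 : ℝ)) ≤
        ε / (1 + Z) * (1 + Z) := mul_le_mul_of_nonneg_left (by linarith) (by positivity)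
      _ = ε := by field_simp

/-- there are infinitely many parameters -/
theorem ThreePoles.inf_idx (h : ThreePoles A B) : Infinite (Idx B) := by
  have h1 : {t : ℚ | aeval t B = 0}.Finite := by
    have h2 : (B.map (Int.castRingHom ℚ)) ≠ 0 := by
      rw [Ne, Polynomial.map_eq_zero_iff (RingHom.injective_int _)]
      exact h.B0
    refine ((B.map (Int.castRingHom ℚ)).roots.toFinset.finite_toSet).subset fun t ht => ?_
    rw [Finset.mem_coe, Multiset.mem_toFinset, mem_roots h2, IsRoot.def, eval_map]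
    exact ht
  have h3 : {t : ℚ | aeval t B ≠ 0}.Infinite := h1.infinite_compl
  exact h3.to_subtype

/-- no constant works for almost all `N` -/
theorem ThreePoles.unbounded (h : ThreePoles A B) (y : ℝ) : ∃ d : ℝ, d < 1 ∧
    Tendsto (prop (fun N => best A B N ≤ y)) atTop (𝓝 d) := by
  classical
  obtain ⟨d, hd⟩ := h.best_law (Set.Iic y)
  obtain ⟨D, hD⟩ := h.few (1 / 6) (by norm_num)
  obtain ⟨c, hc⟩ := Pool.Agent.TH876.FH.ana.1 1 one_pos
  -- a parameter with a large modulus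
  have hinf : Infinite (Idx B) := h.inf_idx
  have h1 : ∃ t : Idx B, Real.exp (12 * y + |c| + 1) < mm A B t := by
    by_contra hcon
    push Not at hcon
    have h2 := hD.fin (Real.exp (12 * y + |c| + 1))
    have h3 : {i : Idx B | (mm A B i : ℝ) ≤ Real.exp (12 * y + |c| + 1)} = Set.univ :=
      Set.eq_univ_of_forall hcon
    rw [h3] at h2
    exact Set.infinite_univ h2
  obtain ⟨t, ht⟩ := h1
  have hm : 0 < mm A B t := mj_pos _
  obtain ⟨τ, hτ⟩ := jInv_surj ((J A B t.1 : ℚ) : ℂ)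
  have h2 : y < hone (J A B t.1) τ := by
    have h3 := hc τ
    have h4 : 0 ≤ Real.log (max ‖Pool.Agent.TH876.FH.jInv τ‖ 1) :=
      Real.log_nonneg (le_max_right _ _)
    have e2 : Pool.Agent.TH876.FH.arch τ = arch τ := rfl
    rw [e2] at h3
    have h5 : (mm A B t : ℝ) ≤ (J A B t.1).den := by
      have h6 : mj (J A B t.1) ∣ (J A B t.1).den := mj_dvd.2 fun p _ _ h => h
      exact_mod_cast Nat.le_of_dvd (J A B t.1).pos h6
    have h6 : 12 * y + |c| + 1 < Real.log (J A B t.1).den := by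
      rw [Real.lt_log_iff_exp_lt (by exact_mod_cast (J A B t.1).pos)]
      exact lt_of_lt_of_le ht h5
    unfold hone
    rw [lt_div_iff₀ (by norm_num)]
    have h7 := le_abs_self c
    have h8 := neg_abs_le c
    have h9 := abs_nonneg c
    nlinarith
  refine ⟨d, ?_, hd⟩
  have h3 : Tendsto (fun X : ℕ => 1 - ((X / mm A B t : ℕ) : ℝ) / X) atTop
      (𝓝 (1 - ((mm A B t : ℝ))⁻¹)) := tendsto_const_nhds.sub (tendsto_div _ hm)
  have h4 : d ≤ 1 - ((mm A B t : ℝ))⁻¹ := by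
    refine le_of_tendsto_of_tendsto hd h3 ?_
    filter_upwards [eventually_gt_atTop 0] with X hX
    rw [← count_dvd]
    have h5 : prop (fun N => mm A B t ∣ N) X = (#((Icc 1 X).filter (fun N => mm A B t ∣ N)) : ℝ) / X :=
      prop_def _ _
    rw [← h5, ← prop_not hX]
    refine prop_mono (fun N hN h6 h7 => ?_) X
    have h8 : t.1 ∈ T A B N := mem_T.2 ⟨t.2, h7⟩
    have h9 := (h.best_spec hN).2
    have h10 := bounded_iff.1 h9 t.1 h8 τ hτ
    have h11 : best A B N ≤ y := h6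
    linarith
  have h5 : 0 < ((mm A B t : ℝ))⁻¹ := by positivity
  linarith

/-- prime bases -/
theorem ThreePoles.primes (h : ThreePoles A B) (ε : ℝ) (hε : 0 < ε) : ∃ C : ℝ, 0 < C ∧ ∀ X : ℕ,
    ({p : ℕ | p.Prime ∧ p ≤ X ∧ T A B p ≠ T A B 1}.ncard : ℝ) ≤ C * (X : ℝ) ^ (2 / 3 + ε) := by
  classical
  obtain ⟨D, hD⟩ := h.few ε hε
  refine ⟨D, hD.D0, fun X => ?_⟩
  have hfin : {p : ℕ | p.Prime ∧ p ≤ X ∧ T A B p ≠ T A B 1}.Finite :=
    (Set.finite_Iic X).subset fun p hp => hp.2.1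
  rw [Set.ncard_eq_toFinset_card _ hfin]
  rcases Nat.eq_zero_or_pos X with hX | hX
  · subst hX
    have h1 : hfin.toFinset = ∅ := by
      ext p
      rw [Set.Finite.mem_toFinset]
      constructor
      · rintro ⟨h1, h2, -⟩
        exact absurd h1.pos (by omega)
      · intro h1
        exact absurd h1 (Finset.notMem_empty _)
    rw [h1, Finset.card_empty]
    have := hD.D0
    push_cast
    positivity
  have key : ∀ p : ℕ, p.Prime → T A B p ≠ T A B 1 → ∃ t : Idx B, mm A B t = p := by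
    intro p hp hne
    by_contra hcon
    push Not at hcon
    apply hne
    ext t
    rw [mem_T, mem_T]
    refine and_congr_right fun ht => ?_
    constructor
    · intro h1
      rcases (Nat.dvd_prime hp).1 h1 with h2 | h2
      · rw [h2]
      · exact absurd h2 (hcon ⟨t, ht⟩)
    · intro h1
      exact h1.trans (one_dvd _)
  have hinf : Infinite (Idx B) := h.inf_idx
  choose! f hf using key
  have h1 := hD.cnt X (by exact_mod_cast hX) (hfin.toFinset.image f) (fun t ht => by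
    obtain ⟨p, hp, rfl⟩ := mem_image.1 ht
    rw [Set.Finite.mem_toFinset] at hp
    rw [hf p hp.1 hp.2.2]
    exact_mod_cast hp.2.1)
  rwa [card_image_of_injOn] at h1
  intro p hp q hq hpq
  rw [Finset.mem_coe, Set.Finite.mem_toFinset] at hp hq
  rw [← hf p hp.1 hp.2.2, ← hf q hq.1 hq.2.2, hpq]

end Pool.Agent.L0h51.AB
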