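import Mathlib

/-! Definitions: elliptic curves over all number fields whose invariants are values `J(t)`, `t ∈ ℚ`, of a
rational function with three poles in `{0, 1, ∞}`, with good reduction outside of `2N`. -/

set_option autoImplicit false

namespace Pool.Agent.L0h51.AB

open NumberField IsDedekindDomain Polynomial

/-- the modular invariant `j(τ) = E₄(τ) ^ 3 / Δ(τ) = 1 / q + 744 + ⋯` -/
noncomputable def jInv (τ : UpperHalfPlane) : ℂ :=
  ModularForm.E₄ τ ^ 3 / ModularForm.discriminant τ

/-- the archimedean term `- log (|Δ(τ)| (Im τ) ^ 6)` of the Faltings height -/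
noncomputable def arch (τ : UpperHalfPlane) : ℝ :=
  -Real.log (‖ModularForm.discriminant τ‖ * τ.im ^ 6)

/-- the points `τ w` have modular invariant `j` -/
def IsPeriod {L : Type} [Field L] [NumberField L] (j : L)
    (τ : InfinitePlace L → UpperHalfPlane) : Prop := ∀ w, jInv (τ w) = w.embedding j

/-- the stable Faltings height of the Weil restriction `Res_{L/ℚ} E` of an elliptic curve `E` over `L`
of invariant `j`, i.e. `[L : ℚ]` times the stable height of `E`, where the points `τ w` have invariant
`j` (up to an absolute multiple of `[L : ℚ]` which depends on the normalisation of the metric only):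
`12 h_F` is the sum of `log max(|j|_v, 1)` over the finite places `v` of `L` and of the archimedean
terms -/
noncomputable def stableHeight {L : Type} [Field L] [NumberField L] (j : L)
    (τ : InfinitePlace L → UpperHalfPlane) : ℝ :=
  (∑ᶠ v : HeightOneSpectrum (𝓞 L), Real.log (max (FinitePlace.mk v j) 1) +
    ∑ w : InfinitePlace L, (w.mult : ℝ) * arch (τ w)) / 12

/-- good reduction at `v`: some Weierstrass equation over `L` of the curve is integral at `v` and
has a discriminant which is a unit at `v` -/
def GoodAt {L : Type} [Field L] [NumberField L] (v : HeightOneSpectrum (𝓞 L))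
    (E : WeierstrassCurve L) : Prop :=
  ∃ C : WeierstrassCurve.VariableChange L,
    v.valuation L (C • E).a₁ ≤ 1 ∧ v.valuation L (C • E).a₂ ≤ 1 ∧ v.valuation L (C • E).a₃ ≤ 1 ∧
    v.valuation L (C • E).a₄ ≤ 1 ∧ v.valuation L (C • E).a₆ ≤ 1 ∧ v.valuation L (C • E).Δ = 1

/-- good reduction at all primes of `L` which do not divide `N` -/
def GoodOutside {L : Type} [Field L] [NumberField L] (N : ℕ) (E : WeierstrassCurve L) : Prop :=
  ∀ v : HeightOneSpectrum (𝓞 L), (N : 𝓞 L) ∉ v.asIdeal → GoodAt v E

/-- the rational function `J = A / B` is in lowest terms and has poles at `0`, `1` and `∞` -/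
structure ThreePoles (A B : ℤ[X]) : Prop where
  cop : IsCoprime (A.map (Int.castRingHom ℚ)) (B.map (Int.castRingHom ℚ))
  zero : B.eval 0 = 0
  one : B.eval 1 = 0
  inf : B.natDegree < A.natDegree

/-- the value `J(t) = A(t) / B(t)` -/
noncomputable def J (A B : ℤ[X]) (t : ℚ) : ℚ := aeval t A / aeval t B

/-- `t` is not a pole of `J`, and `E` is an elliptic curve over `L` of invariant `J(t)` with good
reduction outside of `2N` -/
def Member (A B : ℤ[X]) (N : ℕ) (t : ℚ) {L : Type} [Field L] [NumberField L]
    (E : WeierstrassCurve L) : Prop :=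
  aeval t B ≠ 0 ∧ E.Δ ≠ 0 ∧ E.c₄ ^ 3 / E.Δ = ((J A B t : ℚ) : L) ∧ GoodOutside (2 * N) E

/-- the parameters `t` for which there is such a curve over some number field -/
def T (A B : ℤ[X]) (N : ℕ) : Set ℚ :=
  {t | ∃ (L : Type) (_ : Field L) (_ : NumberField L) (E : WeierstrassCurve L), Member A B N t E}

/-- `h_F(A) ≤ y dim A` for all products `A = ∏ (Res_{L_i/ℚ} E_i) ^ (e_i)` of powers of Weil
restrictions of elliptic curves `E_i` of invariants `J(t_i)` over number fields `L_i` with good
reduction outside of `2N` -/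
def Bounded (A B : ℤ[X]) (N : ℕ) (y : ℝ) : Prop :=
  ∀ (r : ℕ) (L : Fin r → Type) [∀ i, Field (L i)] [∀ i, NumberField (L i)] (t : Fin r → ℚ)
    (E : ∀ i, WeierstrassCurve (L i)) (τ : ∀ i, InfinitePlace (L i) → UpperHalfPlane)
    (e : Fin r → ℕ),
    (∀ i, Member A B N (t i) (E i) ∧ IsPeriod ((J A B (t i) : ℚ) : L i) (τ i)) →
    ∑ i, (e i : ℝ) * stableHeight ((J A B (t i) : ℚ) : L i) (τ i) ≤
      y * ∑ i, (e i : ℝ) * Module.finrank ℚ (L i)

/-- the least constant `y ≥ 0` such that `h_F(A) ≤ y dim A` for all these abelian varieties -/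
noncomputable def best (A B : ℤ[X]) (N : ℕ) : ℝ := sInf {y : ℝ | 0 ≤ y ∧ Bounded A B N y}

/-- `log (3 + h(t))`, where `h(t) = log max(|a|, b)` is the height of `t = a / b` -/
noncomputable def size (t : ℚ) : ℝ := Real.log (3 + Real.log (max t.num.natAbs t.den : ℕ))

/-- numerator and denominator of the invariant `256 (t² - t + 1)³ / (t² (t - 1)²)` of the Legendre
curve -/
noncomputable def legA : ℤ[X] := C 256 * (X ^ 2 - X + 1) ^ 3
noncomputable def legB : ℤ[X] := X ^ 2 * (X - 1) ^ 2

/-- the Legendre curve `y² = x (x - 1) (x - t)` over `ℚ` -/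
def legendre (t : ℚ) : WeierstrassCurve ℚ := ⟨0, -(1 + t), 0, t, 0⟩

end Pool.Agent.L0h51.AB
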