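import Pool.Agent.L0h51.AB.Sum

/-! Densities of sets of multiples. -/

set_option autoImplicit false
set_option maxHeartbeats 400000

namespace Pool.Agent.L0h51.AB

open Finset Filter Topology

variable {ι : Type}

/-- the proportion of the integers up to `X` with the property `P` -/
noncomputable def prop (P : ℕ → Prop) (X : ℕ) : ℝ := by
  classical exact (#((Icc 1 X).filter P) : ℝ) / X

theorem prop_def (P : ℕ → Prop) [DecidablePred P] (X : ℕ) :
    prop P X = (#((Icc 1 X).filter P) : ℝ) / X := by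
  unfold prop
  congr

theorem count_dvd (n X : ℕ) : #((Icc 1 X).filter (fun N => n ∣ N)) = X / n := by
  have e1 : (Icc 1 X).filter (fun N => n ∣ N) = (Ioc 0 X).filter (fun N => n ∣ N) := by
    congr 1
  rw [e1, Nat.Ioc_filter_dvd_card_eq_div]

theorem tendsto_div (n : ℕ) (hn : 0 < n) :
    Tendsto (fun X : ℕ => ((X / n : ℕ) : ℝ) / X) atTop (𝓝 ((n : ℝ))⁻¹) := by
  have hn0 : (0 : ℝ) < n := by exact_mod_cast hn
  have h1 : Tendsto (fun X : ℕ => ((n : ℝ))⁻¹ - (1 : ℝ) / X) atTop (𝓝 (((n : ℝ))⁻¹ - 0)) :=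
    tendsto_const_nhds.sub tendsto_one_div_atTop_nhds_zero_nat
  rw [sub_zero] at h1
  refine tendsto_of_tendsto_of_tendsto_of_le_of_le' h1 tendsto_const_nhds ?_ ?_
  · filter_upwards [eventually_gt_atTop 0] with X hX
    have hX0 : (0 : ℝ) < X := by exact_mod_cast hX
    rw [le_div_iff₀ hX0, sub_mul, one_div, inv_mul_cancel₀ hX0.ne']
    have h2 : X < (X / n + 1) * n := Nat.lt_mul_of_div_lt (Nat.lt_succ_self _) hn
    have h3 : (X : ℝ) < ((X / n : ℕ) + 1) * n := by exact_mod_cast h2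
    have h4 : ((n : ℝ))⁻¹ * X < ((X / n : ℕ) : ℝ) + 1 := by
      rw [inv_mul_lt_iff₀ hn0]
      linarith
    linarith
  · filter_upwards [eventually_gt_atTop 0] with X hX
    have hX0 : (0 : ℝ) < X := by exact_mod_cast hX
    rw [div_le_iff₀ hX0, ← div_eq_inv_mul]
    exact Nat.cast_div_le

/-- the density of a finite union of sets of multiples exists -/
theorem dens_finset (F : Finset ι) : ∀ m : ι → ℕ, (∀ i, 0 < m i) →
    ∃ d : ℝ, Tendsto (prop (fun N => ∃ i ∈ F, m i ∣ N)) atTop (𝓝 d) := by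
  classical
  induction F using Finset.induction_on with
  | empty =>
    intro m _
    refine ⟨0, ?_⟩
    refine (tendsto_const_nhds (x := (0 : ℝ))).congr fun X => ?_
    rw [prop_def]
    simp
  | insert a F ha ih =>
    intro m hm
    obtain ⟨d1, h1⟩ := ih m hm
    obtain ⟨d2, h2⟩ := ih (fun i => Nat.lcm (m a) (m i)) (fun i => Nat.lcm_pos (hm a) (hm i))
    have h3 := tendsto_div (m a) (hm a)
    refine ⟨d1 + ((m a : ℝ))⁻¹ - d2, ((h1.add h3).sub h2).congr fun X => ?_⟩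
    rw [prop_def, prop_def, prop_def, ← count_dvd, ← add_div, ← sub_div]
    congr 1
    have h4 : (Icc 1 X).filter (fun N => ∃ i ∈ insert a F, m i ∣ N) =
        (Icc 1 X).filter (fun N => ∃ i ∈ F, m i ∣ N) ∪ (Icc 1 X).filter (fun N => m a ∣ N) := by
      rw [← filter_or]
      refine filter_congr fun N _ => ?_
      simp only [mem_insert, exists_eq_or_imp]
      exact or_comm
    have h5 : (Icc 1 X).filter (fun N => ∃ i ∈ F, Nat.lcm (m a) (m i) ∣ N) =
        (Icc 1 X).filter (fun N => ∃ i ∈ F, m i ∣ N) ∩ (Icc 1 X).filter (fun N => m a ∣ N) := by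
      rw [← filter_and]
      refine filter_congr fun N _ => ?_
      constructor
      · rintro ⟨i, hi, hd⟩
        exact ⟨⟨i, hi, (Nat.dvd_lcm_right _ _).trans hd⟩, (Nat.dvd_lcm_left _ _).trans hd⟩
      · rintro ⟨⟨i, hi, hd⟩, hd2⟩
        exact ⟨i, hi, Nat.lcm_dvd hd2 hd⟩
    rw [h4, h5]
    have h6 := card_union_add_card_inter ((Icc 1 X).filter (fun N => ∃ i ∈ F, m i ∣ N))
      ((Icc 1 X).filter (fun N => m a ∣ N))
    have h7 : (#((Icc 1 X).filter (fun N => ∃ i ∈ F, m i ∣ N) ∪ (Icc 1 X).filter (fun N => m a ∣ N)) : ℝ) +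
        (#((Icc 1 X).filter (fun N => ∃ i ∈ F, m i ∣ N) ∩ (Icc 1 X).filter (fun N => m a ∣ N)) : ℝ) =
        (#((Icc 1 X).filter (fun N => ∃ i ∈ F, m i ∣ N)) : ℝ) +
        (#((Icc 1 X).filter (fun N => m a ∣ N)) : ℝ) := by exact_mod_cast h6
    linarith

variable {m : ι → ℕ} {D θ : ℝ}

theorem prop_nonneg (P : ℕ → Prop) (X : ℕ) : 0 ≤ prop P X := by
  classical
  rw [prop_def]
  positivity

theorem prop_mono {P Q : ℕ → Prop} (h : ∀ N, 0 < N → P N → Q N) (X : ℕ) : prop P X ≤ prop Q X := by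
  classical
  rw [prop_def, prop_def]
  refine div_le_div_of_nonneg_right ?_ (Nat.cast_nonneg _)
  have : #((Icc 1 X).filter P) ≤ #((Icc 1 X).filter Q) := by
    refine card_le_card fun N hN => ?_
    rw [mem_filter, mem_Icc] at hN ⊢
    exact ⟨hN.1, h N hN.1.1 hN.2⟩
  exact_mod_cast this

theorem prop_or (P Q : ℕ → Prop) (X : ℕ) : prop (fun N => P N ∨ Q N) X ≤ prop P X + prop Q X := by
  classical
  rw [prop_def, prop_def, prop_def, ← add_div]
  refine div_le_div_of_nonneg_right ?_ (Nat.cast_nonneg _)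
  rw [filter_or]
  exact_mod_cast card_union_le _ _

theorem Few.prop_le (h : Few m D θ) (hθ : θ < 1) (J : Set ι) (X : ℕ) :
    prop (fun N => ∃ i ∈ J, m i ∣ N) X ≤ ∑' i : J, ((m i : ℝ))⁻¹ := by
  classical
  rw [prop_def]
  have h1 := h.card_le hθ J X
  rcases Nat.eq_zero_or_pos X with hX | hX
  · subst hX
    simp only [CharP.cast_eq_zero, div_zero]
    exact tsum_nonneg fun i => by positivity
  · have hX0 : (0 : ℝ) < X := by exact_mod_cast hX
    rw [div_le_iff₀ hX0, mul_comm]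
    refine le_trans (le_of_eq ?_) h1
    congr

/-- small tails -/
theorem Few.small_tail (h : Few m D θ) (hθ : θ < 1) {ε : ℝ} (hε : 0 < ε) :
    ∃ F : Finset ι, ∀ J : Set ι, (∀ i ∈ J, i ∉ F) → ∑' i : J, ((m i : ℝ))⁻¹ ≤ ε := by
  classical
  have hs := h.summable_inv hθ
  have h1 := tendsto_tsum_compl_atTop_zero (fun i => ((m i : ℝ))⁻¹)
  obtain ⟨F, hF⟩ := (h1.eventually_le_const (show (0 : ℝ) < ε from hε)).exists
  refine ⟨F, fun J hJ => le_trans ?_ hF⟩
  have h2 : Summable fun i : {i // i ∉ F} => ((m i : ℝ))⁻¹ := hs.subtype _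
  refine Summable.tsum_le_tsum_of_inj (fun i : J => (⟨i.1, hJ i.1 i.2⟩ : {i // i ∉ F})) ?_ ?_ ?_
    (hs.subtype J) h2
  · intro a b hab
    have : a.1 = b.1 := congrArg (fun z : {i // i ∉ F} => z.1) hab
    exact Subtype.ext this
  · intro c _
    positivity
  · intro i
    exact le_rfl

/-- **The density of a set of multiples exists.** -/
theorem Few.dens (h : Few m D θ) (hθ : θ < 1) (J : Set ι) :
    ∃ d : ℝ, Tendsto (prop (fun N => ∃ i ∈ J, m i ∣ N)) atTop (𝓝 d) := by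
  classical
  apply cauchySeq_tendsto_of_complete
  rw [Metric.cauchySeq_iff']
  intro ε hε
  obtain ⟨F, hF⟩ := h.small_tail hθ (show 0 < ε / 4 by positivity)
  obtain ⟨d, hd⟩ := dens_finset (F.filter (· ∈ J)) m h.pos
  obtain ⟨N₀, hN₀⟩ := (Metric.cauchySeq_iff'.1 hd.cauchySeq) (ε / 4) (by positivity)
  refine ⟨N₀, fun X hX => ?_⟩
  have key : ∀ Y, |prop (fun N => ∃ i ∈ J, m i ∣ N) Y -
      prop (fun N => ∃ i ∈ F.filter (· ∈ J), m i ∣ N) Y| ≤ ε / 4 := by
    intro Y
    have h1 : prop (fun N => ∃ i ∈ F.filter (· ∈ J), m i ∣ N) Y ≤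
        prop (fun N => ∃ i ∈ J, m i ∣ N) Y := by
      refine prop_mono (fun N _ => ?_) Y
      rintro ⟨i, hi, hd⟩
      rw [mem_filter] at hi
      exact ⟨i, hi.2, hd⟩
    have h2 : prop (fun N => ∃ i ∈ J, m i ∣ N) Y ≤
        prop (fun N => (∃ i ∈ F.filter (· ∈ J), m i ∣ N) ∨ ∃ i ∈ J \ (F : Set ι), m i ∣ N) Y := by
      refine prop_mono (fun N _ => ?_) Y
      rintro ⟨i, hi, hd⟩
      by_cases hiF : i ∈ F
      · exact Or.inl ⟨i, mem_filter.2 ⟨hiF, hi⟩, hd⟩
      · exact Or.inr ⟨i, ⟨hi, hiF⟩, hd⟩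
    have h3 := prop_or (fun N => ∃ i ∈ F.filter (· ∈ J), m i ∣ N)
      (fun N => ∃ i ∈ J \ (F : Set ι), m i ∣ N) Y
    have h4 := h.prop_le hθ (J \ (F : Set ι)) Y
    have h5 := hF (J \ (F : Set ι)) (fun i hi => hi.2)
    rw [abs_of_nonneg (by linarith)]
    linarith
  have h1 := hN₀ X hX
  rw [Real.dist_eq] at h1 ⊢
  have h2 := key X
  have h3 := key N₀
  rw [abs_le] at h2 h3
  rw [abs_lt] at h1 ⊢
  constructor <;> linarith

/-- The density is at most the sum of the inverses. -/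
theorem Few.dens_le (h : Few m D θ) (hθ : θ < 1) (J : Set ι) {d : ℝ}
    (hd : Tendsto (prop (fun N => ∃ i ∈ J, m i ∣ N)) atTop (𝓝 d)) :
    d ≤ ∑' i : J, ((m i : ℝ))⁻¹ :=
  le_of_tendsto' hd fun X => h.prop_le hθ J X

theorem prop_not {P : ℕ → Prop} {X : ℕ} (hX : 0 < X) : prop (fun N => ¬ P N) X = 1 - prop P X := by
  classical
  have hX0 : (0 : ℝ) < X := by exact_mod_cast hX
  rw [prop_def, prop_def, eq_sub_iff_add_eq, ← add_div, div_eq_one_iff_eq hX0.ne']
  have h1 := card_filter_add_card_filter_not (s := Icc 1 X) P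
  rw [Nat.card_Icc, Nat.add_sub_cancel] at h1
  have h2 : (#((Icc 1 X).filter P) : ℝ) + (#((Icc 1 X).filter (fun N => ¬ P N)) : ℝ) = X := by
    exact_mod_cast h1
  linarith

/-- **The limit law of the largest value** of a function at the moduli which divide `N`. -/
theorem Few.law (h : Few m D θ) (hθ : θ < 1) (H : ι → EReal) :
    ∃ G : ℝ → ℝ, (∀ y : ℝ, Tendsto (prop (fun N => ∀ i, m i ∣ N → H i ≤ (y : EReal))) atTop (𝓝 (G y))) ∧
      ((∀ i, H i ≠ ⊤) → Tendsto G atTop (𝓝 1)) := by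
  classical
  have h1 : ∀ y : ℝ, ∃ d : ℝ, Tendsto (prop (fun N => ∃ i ∈ {i | (y : EReal) < H i}, m i ∣ N)) atTop
      (𝓝 d) := fun y => h.dens hθ _
  choose d hd using h1
  refine ⟨fun y => 1 - d y, fun y => ?_, fun hH => ?_⟩
  · refine ((tendsto_const_nhds (x := (1 : ℝ))).sub (hd y)).congr' ?_
    filter_upwards [eventually_gt_atTop 0] with X hX
    rw [← prop_not hX]
    rw [prop_def, prop_def]
    congr 3
    refine filter_congr fun N _ => ?_
    simp only [not_exists, not_and]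
    constructor
    · intro h1 i h2
      by_contra h3
      exact h1 i (not_le.1 h3) h2
    · intro h1 i h2 h3
      exact absurd (h1 i h3) (not_le.2 h2)
  · rw [Metric.tendsto_nhds]
    intro ε hε
    obtain ⟨F, hF⟩ := h.small_tail hθ (show 0 < ε / 2 by positivity)
    have h2 : ∃ y₀ : ℝ, ∀ i ∈ F, H i ≤ y₀ := by
      have h3 : ∀ i, ∃ r : ℝ, H i ≤ r := fun i => by
        obtain ⟨r, hr, -⟩ := EReal.lt_iff_exists_real_btwn.1 (lt_top_iff_ne_top.2 (hH i))
        exact ⟨r, hr.le⟩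
      choose r hr using h3
      rcases F.eq_empty_or_nonempty with rfl | hne
      · exact ⟨0, by simp⟩
      · obtain ⟨x0, -, hmax⟩ := Finset.exists_max_image F r hne
        exact ⟨r x0, fun i hi => (hr i).trans (by exact_mod_cast hmax i hi)⟩
    obtain ⟨y₀, hy₀⟩ := h2
    filter_upwards [eventually_ge_atTop y₀] with y hy
    have h3 := h.dens_le hθ _ (hd y)
    have h4 := hF {i | (y : EReal) < H i} (fun i hi hiF => by
      have h5 : H i ≤ (y₀ : EReal) := hy₀ i hiF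
      have h6 : (y₀ : EReal) ≤ (y : EReal) := by exact_mod_cast hy
      exact absurd (lt_of_lt_of_le hi (h5.trans h6)) (lt_irrefl _))
    have h5 : 0 ≤ d y := ge_of_tendsto' (hd y) fun X => prop_nonneg _ X
    rw [Real.dist_eq, abs_sub_comm, abs_of_nonneg (by linarith)]
    linarith

end Pool.Agent.L0h51.AB
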