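import Pool.Agent.L0h51.AB.Mom

/-! The limit law of the set of the moduli which divide `N`. -/

set_option autoImplicit false
set_option maxHeartbeats 400000

namespace Pool.Agent.L0h51.AB

open Finset Filter Topology

variable {ι : Type} {m : ι → ℕ} {D θ : ℝ} {S : ℕ → Finset ι} {w : ι → ℝ}

/-- the density of the `N` with a given set -/
theorem point (h : Thin m D θ S) (Φ : Finset ι) :
    ∃ d : ℝ, Tendsto (prop (fun N => S N = Φ)) atTop (𝓝 d) := by
  classical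
  set l : ℕ := Φ.lcm m with hl
  have hl0 : 0 < l := by
    rw [hl]
    refine Nat.pos_of_ne_zero ?_
    rw [Ne, Finset.lcm_eq_zero_iff]
    rintro ⟨i, -, hi⟩
    exact absurd hi (h.few.pos i).ne'
  set m' : ι → ℕ := fun j => Nat.lcm l (m j) with hm'
  have hfew : Few m' D θ := by
    refine ⟨fun i => Nat.lcm_pos hl0 (h.few.pos i), h.few.D0, h.few.θ0, fun X hX F hF => ?_⟩
    refine h.few.cnt X hX F fun i hi => le_trans ?_ (hF i hi)
    have h1 : m i ∣ m' i := Nat.dvd_lcm_right _ _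
    exact_mod_cast Nat.le_of_dvd (Nat.lcm_pos hl0 (h.few.pos i)) h1
  obtain ⟨d, hd⟩ := hfew.dens h.lt1 {j | j ∉ Φ}
  refine ⟨((l : ℝ))⁻¹ - d, ((tendsto_div l hl0).sub hd).congr fun X => ?_⟩
  rw [prop_def, prop_def, ← count_dvd, ← sub_div]
  congr 1
  have h1 : (Icc 1 X).filter (fun N => S N = Φ) =
      (Icc 1 X).filter (fun N => l ∣ N) \ (Icc 1 X).filter (fun N => ∃ j ∈ {j | j ∉ Φ}, m' j ∣ N) := by
    ext N
    rw [Finset.mem_sdiff, mem_filter, mem_filter, mem_filter]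
    constructor
    · rintro ⟨h1, h2⟩
      refine ⟨⟨h1, ?_⟩, ?_⟩
      · refine Finset.lcm_dvd fun i hi => ?_
        rw [← h2] at hi
        exact (h.mem N (mem_Icc.1 h1).1 i).1 hi
      · rintro ⟨-, j, hj, hd⟩
        apply hj
        rw [← h2]
        exact (h.mem N (mem_Icc.1 h1).1 j).2 ((Nat.dvd_lcm_right _ _).trans hd)
    · rintro ⟨⟨h1, h2⟩, h3⟩
      refine ⟨h1, ?_⟩
      ext i
      rw [h.mem N (mem_Icc.1 h1).1 i]
      constructor
      · intro h4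
        by_contra h5
        exact h3 ⟨h1, i, h5, Nat.lcm_dvd h2 h4⟩
      · intro h4
        exact (Finset.dvd_lcm h4).trans h2
  have h2 : (Icc 1 X).filter (fun N => ∃ j ∈ {j | j ∉ Φ}, m' j ∣ N) ⊆
      (Icc 1 X).filter (fun N => l ∣ N) := by
    intro N hN
    rw [mem_filter] at hN ⊢
    obtain ⟨h1, j, -, hd⟩ := hN
    exact ⟨h1, (Nat.dvd_lcm_left _ _).trans hd⟩
  rw [h1, card_sdiff_of_subset h2, Nat.cast_sub (card_le_card h2)]

/-- the mean of a function of the set -/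
noncomputable def mean (S : ℕ → Finset ι) (Ψ : Finset ι → ℝ) (X : ℕ) : ℝ :=
  (∑ N ∈ Icc 1 X, Ψ (S N)) / X

theorem mean_le {Ψ₁ Ψ₂ : Finset ι → ℝ} (h : ∀ Φ, Ψ₁ Φ ≤ Ψ₂ Φ) (X : ℕ) :
    mean S Ψ₁ X ≤ mean S Ψ₂ X :=
  div_le_div_of_nonneg_right (sum_le_sum fun _ _ => h _) (Nat.cast_nonneg _)

theorem mean_add (Ψ₁ Ψ₂ : Finset ι → ℝ) (X : ℕ) :
    mean S (fun Φ => Ψ₁ Φ + Ψ₂ Φ) X = mean S Ψ₁ X + mean S Ψ₂ X := by
  unfold mean
  rw [sum_add_distrib, add_div]

theorem mean_ind (P : Finset ι → Prop) [DecidablePred P] (X : ℕ) :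
    mean S (fun Φ => if P Φ then 1 else 0) X = prop (fun N => P (S N)) X := by
  unfold mean
  rw [prop_def]
  congr 1
  rw [sum_boole]

theorem mean_mul (c : ℝ) (Ψ : Finset ι → ℝ) (X : ℕ) :
    mean S (fun Φ => c * Ψ Φ) X = c * mean S Ψ X := by
  unfold mean
  rw [← mul_sum, mul_div_assoc]

theorem mean_sum (𝒞 : Finset (Finset ι)) [DecidableEq ι] (Ψ : Finset ι → ℝ) (X : ℕ) :
    mean S (fun Φ => if Φ ∈ 𝒞 then Ψ Φ else 0) X =
      ∑ Φ ∈ 𝒞, Ψ Φ * prop (fun N => S N = Φ) X := by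
  unfold mean
  have h1 : ∀ Φ ∈ 𝒞, Ψ Φ * prop (fun N => S N = Φ) X =
      (∑ N ∈ Icc 1 X, if S N = Φ then Ψ Φ else 0) / X := by
    intro Φ _
    rw [prop_def, ← mul_div_assoc]
    congr 1
    rw [← sum_filter, sum_const, nsmul_eq_mul, mul_comm]
  rw [sum_congr rfl h1, ← sum_div, sum_comm]
  congr 1
  refine sum_congr rfl fun N _ => ?_
  rw [sum_ite_eq]

/-- **The limit law of the set of the moduli which divide `N`**, with convergence of the means of all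
functions of polynomial growth. -/
theorem limit_law (h : Thin m D θ S) (hw : Slow m w) :
    ∃ μ : Finset ι → ℝ, (∀ Φ, 0 ≤ μ Φ) ∧ HasSum μ 1 ∧
      ∀ (k : ℕ) (Ψ : Finset ι → ℝ), (∀ Φ, |Ψ Φ| ≤ (1 + ∑ i ∈ Φ, w i) ^ k) →
        Summable (fun Φ => μ Φ * Ψ Φ) ∧
        Tendsto (mean S Ψ) atTop (𝓝 (∑' Φ, μ Φ * Ψ Φ)) := by
  classical
  choose μ hμ using point h
  have hμ0 : ∀ Φ, 0 ≤ μ Φ := fun Φ => ge_of_tendsto' (hμ Φ) fun X => prop_nonneg _ X
  -- the part outside of a finite set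
  have hout : ∀ ε : ℝ, 0 < ε → ∃ F : Finset ι, ∀ F', F ⊆ F' → ∀ X,
      prop (fun N => S N ∉ F'.powerset) X ≤ ε := by
    intro ε hε
    obtain ⟨F, hF⟩ := h.few.small_tail h.lt1 hε
    refine ⟨F, fun F' hF' X => ?_⟩
    refine le_trans (prop_mono (Q := fun N => ∃ i ∈ {i | i ∉ F'}, m i ∣ N) ?_ X)
      ((h.few.prop_le h.lt1 _ X).trans (hF _ fun i hi hiF => hi (hF' hiF)))
    intro N hN h1
    rw [mem_powerset, Finset.not_subset] at h1
    obtain ⟨i, h2, h3⟩ := h1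
    exact ⟨i, h3, (h.mem N hN i).1 h2⟩
  have hlim : ∀ (𝒞 : Finset (Finset ι)) (Ψ : Finset ι → ℝ),
      Tendsto (mean S (fun Φ => if Φ ∈ 𝒞 then Ψ Φ else 0)) atTop (𝓝 (∑ Φ ∈ 𝒞, μ Φ * Ψ Φ)) := by
    intro 𝒞 Ψ
    have h1 : Tendsto (fun X => ∑ Φ ∈ 𝒞, Ψ Φ * prop (fun N => S N = Φ) X) atTop
        (𝓝 (∑ Φ ∈ 𝒞, Ψ Φ * μ Φ)) := tendsto_finsetSum _ fun Φ _ => (hμ Φ).const_mul _
    have h2 : ∑ Φ ∈ 𝒞, Ψ Φ * μ Φ = ∑ Φ ∈ 𝒞, μ Φ * Ψ Φ := sum_congr rfl fun _ _ => mul_comm _ _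
    rw [h2] at h1
    exact h1.congr fun X => (mean_sum 𝒞 Ψ X).symm
  have hmom : ∀ k : ℕ, ∃ K : ℝ, 0 < K ∧ ∀ X, mean S (fun Φ => (1 + ∑ i ∈ Φ, w i) ^ k) X ≤ K := by
    intro k
    obtain ⟨K, hK, h1⟩ := moment h hw k
    refine ⟨K, hK, fun X => ?_⟩
    unfold mean
    rcases Nat.eq_zero_or_pos X with rfl | hX
    · simpa using hK.le
    · rw [div_le_iff₀ (by exact_mod_cast hX)]
      exact h1 X
  have hW0 : ∀ Φ : Finset ι, 0 ≤ ∑ i ∈ Φ, w i := fun Φ => sum_nonneg fun i _ => hw.nn i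
  have hsumm : ∀ k : ℕ, Summable fun Φ => μ Φ * (1 + ∑ i ∈ Φ, w i) ^ k := by
    intro k
    obtain ⟨K, hK, h1⟩ := hmom k
    refine summable_of_sum_le (c := K) (fun Φ => mul_nonneg (hμ0 Φ) (pow_nonneg (by linarith [hW0 Φ]) _))
      fun 𝒞 => ?_
    refine le_of_tendsto' (hlim 𝒞 fun Φ => (1 + ∑ i ∈ Φ, w i) ^ k) fun X => le_trans ?_ (h1 X)
    refine mean_le (fun Φ => ?_) X
    split_ifs
    · exact le_rfl
    · exact pow_nonneg (by linarith [hW0 Φ]) _
  have key : ∀ (k : ℕ) (Ψ : Finset ι → ℝ), (∀ Φ, |Ψ Φ| ≤ (1 + ∑ i ∈ Φ, w i) ^ k) →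
        Summable (fun Φ => μ Φ * Ψ Φ) ∧
        Tendsto (mean S Ψ) atTop (𝓝 (∑' Φ, μ Φ * Ψ Φ)) := by
    intro k Ψ hΨ
    have hs : Summable (fun Φ => μ Φ * Ψ Φ) := by
      refine Summable.of_norm_bounded (hsumm k) fun Φ => ?_
      rw [norm_mul, Real.norm_of_nonneg (hμ0 Φ), Real.norm_eq_abs]
      exact mul_le_mul_of_nonneg_left (hΨ Φ) (hμ0 Φ)
    refine ⟨hs, ?_⟩
    rw [Metric.tendsto_atTop]
    intro ε hε
    obtain ⟨K, hK, hK2⟩ := hmom (k + k)
    -- parameters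
    set R : ℝ := 8 * K / ε with hR
    have hR0 : 0 < R := by positivity
    obtain ⟨F, hF⟩ := hout (ε / (8 * R)) (by positivity)
    have h1 := hs.hasSum
    rw [HasSum, SummationFilter.unconditional_filter, Metric.tendsto_atTop] at h1
    obtain ⟨𝒞₀, h𝒞₀⟩ := h1 (ε / 4) (by positivity)
    set F' : Finset ι := F ∪ 𝒞₀.sup id with hF'
    have hsub : 𝒞₀ ⊆ F'.powerset := by
      intro Φ hΦ
      rw [mem_powerset, hF']
      exact (Finset.le_sup (f := id) hΦ).trans subset_union_right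
    have h2 := h𝒞₀ F'.powerset hsub
    obtain ⟨X₀, hX₀⟩ := (Metric.tendsto_atTop.1 (hlim F'.powerset Ψ)) (ε / 4) (by positivity)
    refine ⟨X₀, fun X hX => ?_⟩
    have h3 := hX₀ X hX
    have h4 : |mean S Ψ X - mean S (fun Φ => if Φ ∈ F'.powerset then Ψ Φ else 0) X| ≤ ε / 4 := by
      have e1 : mean S Ψ X - mean S (fun Φ => if Φ ∈ F'.powerset then Ψ Φ else 0) X =
          mean S (fun Φ => if Φ ∈ F'.powerset then 0 else Ψ Φ) X := by
        rw [sub_eq_iff_eq_add, ← mean_add]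
        congr 1
        funext Φ
        split_ifs
        · ring
        · ring
      rw [e1]
      have e2 : |mean S (fun Φ => if Φ ∈ F'.powerset then 0 else Ψ Φ) X| ≤
          mean S (fun Φ => if Φ ∈ F'.powerset then 0 else |Ψ Φ|) X := by
        unfold mean
        rw [abs_div, abs_of_nonneg (Nat.cast_nonneg (α := ℝ) X)]
        refine div_le_div_of_nonneg_right ((abs_sum_le_sum_abs _ _).trans (le_of_eq ?_))
          (Nat.cast_nonneg _)
        refine sum_congr rfl fun N _ => ?_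
        by_cases f0 : S N ∈ F'.powerset
        · simp only [if_pos f0, abs_zero]
        · simp only [if_neg f0]
      refine e2.trans ?_
      have e3 : mean S (fun Φ => if Φ ∈ F'.powerset then 0 else |Ψ Φ|) X ≤
          mean S (fun Φ => R * (if Φ ∉ F'.powerset then 1 else 0) +
            R⁻¹ * (1 + ∑ i ∈ Φ, w i) ^ (k + k)) X := by
        refine mean_le (fun Φ => ?_) X
        have f1 : 0 ≤ (1 + ∑ i ∈ Φ, w i) ^ k := pow_nonneg (by linarith [hW0 Φ]) _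
        by_cases f2 : Φ ∈ F'.powerset
        · rw [if_pos f2, if_neg (not_not.2 f2), mul_zero, zero_add]
          exact mul_nonneg (by positivity) (pow_nonneg (by linarith [hW0 Φ]) _)
        · rw [if_neg f2, if_pos f2]
          refine (hΨ Φ).trans ?_
          rw [pow_add]
          have f3 : (1 + ∑ i ∈ Φ, w i) ^ k * 1 ≤ R * 1 + R⁻¹ *
              ((1 + ∑ i ∈ Φ, w i) ^ k * (1 + ∑ i ∈ Φ, w i) ^ k) := by
            set u := (1 + ∑ i ∈ Φ, w i) ^ k
            rw [mul_one, mul_one, inv_mul_eq_div, ← sub_le_iff_le_add', le_div_iff₀ hR0]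
            nlinarith [sq_nonneg (u - R)]
          linarith
      refine e3.trans ?_
      rw [mean_add, mean_mul, mean_mul, mean_ind]
      have f4 := hF F' subset_union_left X
      have f5 := hK2 X
      have f6 : R * prop (fun N => S N ∉ F'.powerset) X ≤ ε / 8 := by
        calc R * prop (fun N => S N ∉ F'.powerset) X ≤ R * (ε / (8 * R)) :=
              mul_le_mul_of_nonneg_left f4 hR0.le
          _ = ε / 8 := by field_simp
      have f7 : R⁻¹ * mean S (fun Φ => (1 + ∑ i ∈ Φ, w i) ^ (k + k)) X ≤ ε / 8 := by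
        calc R⁻¹ * mean S (fun Φ => (1 + ∑ i ∈ Φ, w i) ^ (k + k)) X ≤ R⁻¹ * K :=
              mul_le_mul_of_nonneg_left f5 (by positivity)
          _ = ε / 8 := by
              rw [hR]
              field_simp
      linarith
    rw [Real.dist_eq] at h2 h3 ⊢
    rw [abs_le] at h4
    rw [abs_lt] at h2 h3 ⊢
    constructor <;> linarith
  refine ⟨μ, hμ0, ?_, key⟩
  obtain ⟨h1, h2⟩ := key 0 (fun _ => 1) (fun Φ => by simp)
  simp only [mul_one] at h1 h2
  have h3 : ∑' Φ, μ Φ = 1 := by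
    refine tendsto_nhds_unique h2 ?_
    refine (tendsto_const_nhds (x := (1 : ℝ))).congr' ?_
    filter_upwards [eventually_gt_atTop 0] with X hX
    unfold mean
    rw [sum_const, Nat.card_Icc, Nat.add_sub_cancel, nsmul_eq_mul, mul_one, div_self]
    exact_mod_cast hX.ne'
  rw [← h3]
  exact h1.hasSum

end Pool.Agent.L0h51.AB
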