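import Pool.Agent.L0h51.AB.Tri
import Pool.Agent.L0h51.AB.Mean
import Pool.Agent.L0h51.AB.Defs

/-! Rational functions with poles at `0`, `1` and `∞`. -/

set_option autoImplicit false
set_option maxHeartbeats 400000

namespace Pool.Agent.L0h51.AB

open Finset Polynomial

/-- the homogeneous form of a polynomial -/
def hom (P : ℤ[X]) (d : ℕ) (a c : ℤ) : ℤ := ∑ i ∈ range (d + 1), P.coeff i * a ^ i * c ^ (d - i)

theorem hom_eq (P : ℤ[X]) {d : ℕ} (hd : P.natDegree ≤ d) (t : ℚ) :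
    (hom P d t.num t.den : ℚ) = (t.den : ℚ) ^ d * aeval t P := by
  have hc : (t.den : ℚ) ≠ 0 := by exact_mod_cast t.den_nz
  rw [aeval_eq_sum_range' (Nat.lt_succ_of_le hd), mul_sum, hom]
  push_cast
  refine sum_congr rfl fun i hi => ?_
  have hi' : i ≤ d := Nat.lt_succ_iff.1 (mem_range.1 hi)
  have h1 : (t.den : ℚ) ^ d = (t.den : ℚ) ^ (d - i) * (t.den : ℚ) ^ i := by
    rw [← pow_add, Nat.sub_add_cancel hi']
  have h2 : (t.num : ℚ) = t * t.den := by
    rw [Rat.mul_den_eq_num]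
  rw [h1, h2, mul_pow, zsmul_eq_mul]
  ring

theorem hom_zero (P : ℤ[X]) {d : ℕ} {p : ℤ} {a c : ℤ} (h : p ∣ a) :
    p ∣ hom P d a c - P.eval 0 * c ^ d := by
  rw [hom, sum_range_succ', ← coeff_zero_eq_eval_zero]
  simp only [pow_zero, mul_one, Nat.sub_zero]
  rw [add_sub_cancel_right]
  refine dvd_sum fun i _ => ?_
  rw [pow_succ]
  exact Dvd.dvd.mul_right (Dvd.dvd.mul_left (Dvd.dvd.mul_left h _) _) _

theorem hom_inf (P : ℤ[X]) {d : ℕ} {p : ℤ} {a c : ℤ} (h : p ∣ c) :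
    p ∣ hom P d a c - P.coeff d * a ^ d := by
  rw [hom, sum_range_succ]
  simp only [Nat.sub_self, pow_zero, mul_one]
  rw [add_sub_cancel_right]
  refine dvd_sum fun i hi => ?_
  have hi' : i < d := mem_range.1 hi
  have h1 : d - i = (d - i - 1) + 1 := by omega
  rw [h1, pow_succ]
  exact Dvd.dvd.mul_left (Dvd.dvd.mul_left h _) _

theorem hom_one (P : ℤ[X]) {d : ℕ} (hd : P.natDegree ≤ d) {p : ℤ} {a c : ℤ} (h : p ∣ c - a) :
    p ∣ hom P d a c - P.eval 1 * c ^ d := by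
  have h1 : P.eval 1 * c ^ d = ∑ i ∈ range (d + 1), P.coeff i * c ^ i * c ^ (d - i) := by
    rw [eval_eq_sum_range' (Nat.lt_succ_of_le hd), sum_mul]
    refine sum_congr rfl fun i hi => ?_
    have hi' : i ≤ d := Nat.lt_succ_iff.1 (mem_range.1 hi)
    have h2 : c ^ d = c ^ i * c ^ (d - i) := by
      rw [← pow_add, Nat.add_sub_cancel' hi']
    rw [h2, one_pow]
    ring
  rw [h1, hom, ← sum_sub_distrib]
  refine dvd_sum fun i _ => ?_
  have h3 : P.coeff i * a ^ i * c ^ (d - i) - P.coeff i * c ^ i * c ^ (d - i) =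
      -(c ^ i - a ^ i) * (P.coeff i * c ^ (d - i)) := by ring
  rw [h3]
  exact Dvd.dvd.mul_right ((dvd_neg).2 (h.trans (sub_dvd_pow_sub_pow c a i))) _

theorem hom_abs (P : ℤ[X]) (d : ℕ) {a c : ℤ} {M : ℝ} (ha : |(a : ℝ)| ≤ M) (hc : |(c : ℝ)| ≤ M) :
    |(hom P d a c : ℝ)| ≤ (∑ i ∈ range (d + 1), |(P.coeff i : ℝ)|) * M ^ d := by
  rw [hom]
  push_cast
  refine (abs_sum_le_sum_abs _ _).trans ?_
  rw [sum_mul]
  refine sum_le_sum fun i hi => ?_
  have hi' : i ≤ d := Nat.lt_succ_iff.1 (mem_range.1 hi)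
  rw [abs_mul, abs_mul, mul_assoc, abs_pow, abs_pow]
  refine mul_le_mul_of_nonneg_left ?_ (abs_nonneg _)
  have hM : 0 ≤ M := (abs_nonneg _).trans ha
  have h2 : M ^ d = M ^ i * M ^ (d - i) := by
    rw [← pow_add, Nat.add_sub_cancel' hi']
  rw [h2]
  exact mul_le_mul (pow_le_pow_left₀ (abs_nonneg _) ha _) (pow_le_pow_left₀ (abs_nonneg _) hc _)
    (by positivity) (by positivity)

variable {A B : ℤ[X]}

theorem ThreePoles.B0 (h : ThreePoles A B) : B ≠ 0 := by
  rintro rfl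
  have h1 := h.cop
  rw [Polynomial.map_zero, isCoprime_zero_right] at h1
  have h2 := natDegree_eq_zero_of_isUnit h1
  rw [natDegree_map_eq_of_injective (RingHom.injective_int _)] at h2
  have h3 := h.inf
  omega

theorem ThreePoles.A0 (h : ThreePoles A B) : A.eval 0 ≠ 0 := by
  intro h1
  obtain ⟨u, v, huv⟩ := h.cop
  have h2 := congrArg (Polynomial.eval 0) huv
  have h3 : (A.map (Int.castRingHom ℚ)).eval 0 = 0 := by
    rw [eval_map, eval₂_at_zero, coeff_zero_eq_eval_zero, h1]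
    simp
  have h4 : (B.map (Int.castRingHom ℚ)).eval 0 = 0 := by
    rw [eval_map, eval₂_at_zero, coeff_zero_eq_eval_zero, h.zero]
    simp
  rw [eval_add, eval_mul, eval_mul, h3, h4] at h2
  simp at h2

theorem ThreePoles.A1 (h : ThreePoles A B) : A.eval 1 ≠ 0 := by
  intro h1
  obtain ⟨u, v, huv⟩ := h.cop
  have h2 := congrArg (Polynomial.eval 1) huv
  have h3 : (A.map (Int.castRingHom ℚ)).eval 1 = 0 := by
    rw [eval_one_map, h1]
    simp
  have h4 : (B.map (Int.castRingHom ℚ)).eval 1 = 0 := by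
    rw [eval_one_map, h.one]
    simp
  rw [eval_add, eval_mul, eval_mul, h3, h4] at h2
  simp at h2

theorem ThreePoles.Al (h : ThreePoles A B) : A.leadingCoeff ≠ 0 := by
  rw [leadingCoeff_ne_zero]
  rintro rfl
  exact h.A0 (by simp)

/-- the excluded primes divide this number -/
def MM (A : ℤ[X]) : ℕ := 2 * (A.eval 0).natAbs * (A.eval 1).natAbs * A.leadingCoeff.natAbs

theorem ThreePoles.MM_pos (h : ThreePoles A B) : 0 < MM A := by
  have h0 := Int.natAbs_pos.2 h.A0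
  have h1 := Int.natAbs_pos.2 h.A1
  have h2 := Int.natAbs_pos.2 h.Al
  unfold MM
  positivity

theorem aeval_int (P : ℤ[X]) (a : ℤ) : aeval (a : ℚ) P = ((P.eval a : ℤ) : ℚ) := by
  have h := aeval_algebraMap_apply ℚ a P
  simpa using h

theorem ThreePoles.ne_zero (h : ThreePoles A B) {t : ℚ} (ht : aeval t B ≠ 0) : t ≠ 0 := by
  rintro rfl
  apply ht
  have h1 := aeval_int B 0
  rw [h.zero] at h1
  simpa using h1

theorem ThreePoles.ne_one (h : ThreePoles A B) {t : ℚ} (ht : aeval t B ≠ 0) : t ≠ 1 := by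
  rintro rfl
  apply ht
  have h1 := aeval_int B 1
  rw [h.one] at h1
  simpa using h1

/-- numerator and denominator -/
def UU (A : ℤ[X]) (t : ℚ) : ℤ := hom A A.natDegree t.num t.den
def VV (A B : ℤ[X]) (t : ℚ) : ℤ :=
  hom B B.natDegree t.num t.den * (t.den : ℤ) ^ (A.natDegree - B.natDegree)

theorem ThreePoles.J_eq (h : ThreePoles A B) {t : ℚ} (ht : aeval t B ≠ 0) :
    VV A B t ≠ 0 ∧ J A B t = (UU A t : ℚ) / (VV A B t : ℚ) := by
  have hc : (t.den : ℚ) ≠ 0 := by exact_mod_cast t.den_nz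
  have h1 := hom_eq A le_rfl t
  have h2 := hom_eq B le_rfl t
  have h3 : (VV A B t : ℚ) = (t.den : ℚ) ^ A.natDegree * aeval t B := by
    unfold VV
    push_cast
    rw [h2, mul_right_comm, ← pow_add, Nat.add_sub_cancel' h.inf.le]
  have h4 : (VV A B t : ℚ) ≠ 0 := by
    rw [h3]
    exact mul_ne_zero (pow_ne_zero _ hc) ht
  refine ⟨by exact_mod_cast h4, ?_⟩
  rw [h3, UU, h1, J, mul_div_mul_left _ _ (pow_ne_zero _ hc)]

theorem dvd_den {x : ℚ} {U V : ℤ} (hV : V ≠ 0) (h : x = (U : ℚ) / V) {p : ℕ} (hp : p.Prime)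
    (hpV : (p : ℤ) ∣ V) (hpU : ¬ (p : ℤ) ∣ U) : p ∣ x.den := by
  have hV' : (V : ℚ) ≠ 0 := by exact_mod_cast hV
  have hd : (x.den : ℚ) ≠ 0 := by exact_mod_cast x.den_nz
  have h1 : (x.num : ℚ) / x.den = (U : ℚ) / V := by rw [Rat.num_div_den, h]
  rw [div_eq_div_iff hd hV'] at h1
  have h2 : x.num * V = U * x.den := by exact_mod_cast h1
  have h3 : (p : ℤ) ∣ U * x.den := by
    rw [← h2]
    exact Dvd.dvd.mul_left hpV _
  rcases (Nat.prime_iff_prime_int.1 hp).dvd_or_dvd h3 with h4 | h4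
  · exact absurd h4 hpU
  · exact_mod_cast h4

/-- the primes of the radical are poles -/
theorem ThreePoles.pole (h : ThreePoles A B) {t : ℚ} (ht : aeval t B ≠ 0) {p : ℕ} (hp : p.Prime)
    (hd : p ∣ xx t * yy t * zz t) (hM : ¬ p ∣ MM A) : p ∣ (J A B t).den := by
  obtain ⟨hV, hJ⟩ := h.J_eq ht
  have hpi := Nat.prime_iff_prime_int.1 hp
  have hcop : Nat.Coprime t.num.natAbs t.den := t.reduced
  have hac : ∀ q : ℕ, q.Prime → (q : ℤ) ∣ t.num → (q : ℤ) ∣ (t.den : ℤ) → False := by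
    intro q hq h1 h2
    have h3 : q ∣ t.num.natAbs := Int.natCast_dvd.1 h1
    have h4 : q ∣ t.den := by exact_mod_cast h2
    have h5 := Nat.dvd_gcd h3 h4
    rw [hcop] at h5
    exact hq.one_lt.ne' (Nat.dvd_one.1 h5)
  have hM0 : ¬ (p : ℤ) ∣ A.eval 0 := fun h1 => hM (by
    unfold MM
    exact Dvd.dvd.mul_right (Dvd.dvd.mul_right (Dvd.dvd.mul_left (Int.natCast_dvd.1 h1) _) _) _)
  have hM1 : ¬ (p : ℤ) ∣ A.eval 1 := fun h1 => hM (by
    unfold MM
    exact Dvd.dvd.mul_right (Dvd.dvd.mul_left (Int.natCast_dvd.1 h1) _) _)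
  have hMl : ¬ (p : ℤ) ∣ A.leadingCoeff := fun h1 => hM (by
    unfold MM
    exact Dvd.dvd.mul_left (Int.natCast_dvd.1 h1) _)
  refine dvd_den hV hJ hp ?_ ?_
  · -- the denominator
    by_cases hc : (p : ℤ) ∣ (t.den : ℤ)
    · unfold VV
      have h1 : A.natDegree - B.natDegree = (A.natDegree - B.natDegree - 1) + 1 := by
        have := h.inf
        omega
      rw [h1, pow_succ]
      exact Dvd.dvd.mul_left (Dvd.dvd.mul_left hc _) _
    · unfold VV
      refine Dvd.dvd.mul_right ?_ _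
      rcases (Nat.Prime.dvd_mul hp).1 hd with h1 | h1
      · rcases (Nat.Prime.dvd_mul hp).1 h1 with h2 | h2
        · have h3 : (p : ℤ) ∣ t.num := Int.natCast_dvd.2 h2
          have h4 := hom_zero B (d := B.natDegree) (c := (t.den : ℤ)) h3
          rwa [h.zero, zero_mul, sub_zero] at h4
        · have h3 : (p : ℤ) ∣ (t.den : ℤ) - t.num := Int.natCast_dvd.2 h2
          have h4 := hom_one B le_rfl h3
          rwa [h.one, zero_mul, sub_zero] at h4
      · exact absurd (by exact_mod_cast h1) hc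
  · -- the numerator
    intro hU
    unfold UU at hU
    by_cases hc : (p : ℤ) ∣ (t.den : ℤ)
    · have h4 := hom_inf A (d := A.natDegree) (a := t.num) hc
      have h5 := (Int.dvd_iff_dvd_of_dvd_sub h4).1 hU
      rcases hpi.dvd_or_dvd h5 with h6 | h6
      · exact hMl h6
      · exact hac p hp (hpi.dvd_of_dvd_pow h6) hc
    · rcases (Nat.Prime.dvd_mul hp).1 hd with h1 | h1
      · rcases (Nat.Prime.dvd_mul hp).1 h1 with h2 | h2
        · have h3 : (p : ℤ) ∣ t.num := Int.natCast_dvd.2 h2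
          have h4 := hom_zero A (d := A.natDegree) (c := (t.den : ℤ)) h3
          have h5 := (Int.dvd_iff_dvd_of_dvd_sub h4).1 hU
          rcases hpi.dvd_or_dvd h5 with h6 | h6
          · exact hM0 h6
          · exact hc (hpi.dvd_of_dvd_pow h6)
        · have h3 : (p : ℤ) ∣ (t.den : ℤ) - t.num := Int.natCast_dvd.2 h2
          have h4 := hom_one A le_rfl h3
          have h5 := (Int.dvd_iff_dvd_of_dvd_sub h4).1 hU
          rcases hpi.dvd_or_dvd h5 with h6 | h6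
          · exact hM1 h6
          · exact hc (hpi.dvd_of_dvd_pow h6)
      · exact absurd (by exact_mod_cast h1) hc

/-- the product of the odd primes which divide the denominator of `j` -/
def mj (j : ℚ) : ℕ := ∏ p ∈ j.den.primeFactors.erase 2, p

theorem mj_pos (j : ℚ) : 0 < mj j :=
  prod_pos fun _ hq => (Nat.prime_of_mem_primeFactors (mem_of_mem_erase hq)).pos

theorem mj_dvd {j : ℚ} {N : ℕ} : mj j ∣ N ↔ ∀ p : ℕ, p.Prime → p ≠ 2 → p ∣ j.den → p ∣ N := by
  constructor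
  · intro h p hp h2 hd
    refine dvd_trans ?_ h
    refine dvd_prod_of_mem (fun p => p) ?_
    rw [mem_erase]
    exact ⟨h2, Nat.mem_primeFactors.2 ⟨hp, hd, j.den_nz⟩⟩
  · intro h
    refine Finset.prod_primes_dvd N ?_ ?_
    · intro p hp
      exact (Nat.prime_of_mem_primeFactors (mem_of_mem_erase hp)).prime
    · intro p hp
      rw [mem_erase] at hp
      exact h p (Nat.prime_of_mem_primeFactors hp.2) hp.1 (Nat.dvd_of_mem_primeFactors hp.2)

theorem ThreePoles.rad3_dvd (h : ThreePoles A B) {t : ℚ} (ht : aeval t B ≠ 0) :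
    rad3 t ∣ MM A * mj (J A B t) := by
  refine Finset.prod_primes_dvd _ ?_ ?_
  · intro p hp
    exact (Nat.prime_of_mem_primeFactors hp).prime
  · intro p hp
    have hpp := Nat.prime_of_mem_primeFactors hp
    by_cases hM : p ∣ MM A
    · exact Dvd.dvd.mul_right hM _
    · refine Dvd.dvd.mul_left ?_ _
      have h2 : p ≠ 2 := by
        rintro rfl
        apply hM
        unfold MM
        exact Dvd.dvd.mul_right (Dvd.dvd.mul_right (Dvd.intro _ rfl) _) _
      exact mj_dvd.1 dvd_rfl p hpp h2 (h.pole ht hpp (Nat.dvd_of_mem_primeFactors hp) hM)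

/-- the parameters -/
abbrev Idx (B : ℤ[X]) : Type := {t : ℚ // aeval t B ≠ 0}

/-- the modulus of a parameter -/
noncomputable def mm (A B : ℤ[X]) (t : Idx B) : ℕ := mj (J A B t.1)

theorem ThreePoles.few (h : ThreePoles A B) (ε : ℝ) (hε : 0 < ε) :
    ∃ D : ℝ, Few (mm A B) D (2 / 3 + ε) := by
  classical
  obtain ⟨D, hD, h1⟩ := cnt3 ε hε
  have hM : (0 : ℝ) < MM A := by exact_mod_cast h.MM_pos
  have hM1 : (1 : ℝ) ≤ MM A := by exact_mod_cast h.MM_pos
  refine ⟨D * (MM A : ℝ) ^ (2 / 3 + ε), fun t => mj_pos _, by positivity, by positivity,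
    fun X hX F hF => ?_⟩
  have h2 := h1 (MM A * X) (by nlinarith) (F.image Subtype.val) (fun t ht => by
    obtain ⟨s, hs, rfl⟩ := mem_image.1 ht
    refine ⟨⟨h.ne_zero s.2, h.ne_one s.2⟩, ?_⟩
    have h3 : rad3 s.1 ≤ MM A * mj (J A B s.1) :=
      Nat.le_of_dvd (Nat.mul_pos h.MM_pos (mj_pos _)) (h.rad3_dvd s.2)
    have h4 : (rad3 s.1 : ℝ) ≤ MM A * mj (J A B s.1) := by exact_mod_cast h3
    exact h4.trans (mul_le_mul_of_nonneg_left (hF s hs) hM.le))
  rw [card_image_of_injective _ Subtype.val_injective] at h2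
  refine h2.trans (le_of_eq ?_)
  rw [Real.mul_rpow hM.le (by linarith)]
  ring

theorem ThreePoles.divs (h : ThreePoles A B) (ε : ℝ) (hε : 0 < ε) :
    ∃ C : ℝ, 1 ≤ C ∧ ∀ N, 0 < N → ∀ F : Finset (Idx B), (∀ t ∈ F, mm A B t ∣ N) →
      (F.card : ℝ) ≤ C * (N : ℝ) ^ ε := by
  classical
  obtain ⟨C, hC, h1⟩ := div3 ε hε
  have hM1 : (1 : ℝ) ≤ MM A := by exact_mod_cast h.MM_pos
  have hM2 : (1 : ℝ) ≤ (MM A : ℝ) ^ ε := Real.one_le_rpow hM1 hε.le
  refine ⟨C * (MM A : ℝ) ^ ε, by nlinarith, fun N hN F hF => ?_⟩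
  have h2 := h1 (MM A * N) (Nat.mul_pos h.MM_pos hN) (F.image Subtype.val) (fun t ht => by
    obtain ⟨s, hs, rfl⟩ := mem_image.1 ht
    exact ⟨⟨h.ne_zero s.2, h.ne_one s.2⟩, (h.rad3_dvd s.2).trans (Nat.mul_dvd_mul_left _ (hF s hs))⟩)
  rw [card_image_of_injective _ Subtype.val_injective] at h2
  refine h2.trans (le_of_eq ?_)
  push_cast
  rw [Real.mul_rpow (by linarith) (Nat.cast_nonneg _)]
  ring

end Pool.Agent.L0h51.AB
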