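import Pool.Agent.L0h51.AB.Leg

/-! The members over `N`, and their heights. -/

set_option autoImplicit false
set_option maxHeartbeats 400000

namespace Pool.Agent.L0h51.AB

open Finset Polynomial NumberField IsDedekindDomain Height
open Pool.Agent.N141.TS (exists_above not_mem_of val_int val_lt ht_int)
open Pool.Agent.H691R3 (fv fv_apply)
open Pool.Agent.Y733.FF (good_int fv_le_one_iff fv_one_iff)

section
variable {L : Type} [Field L] [NumberField L]

theorem cast_eq (j : ℚ) : ((j : ℚ) : L) = ((j.num : ℤ) : L) / ((j.den : ℤ) : L) := by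
  have h2 := Rat.num_div_den j
  have h3 : ((j : ℚ) : L) = (((j.num : ℚ) / (j.den : ℚ) : ℚ) : L) := by rw [h2]
  rw [h3]
  push_cast
  rfl

/-- good reduction outside `2N` forces the denominator -/
theorem mj_of_good {N : ℕ} {j : ℚ} {E : WeierstrassCurve L} (hE : E.Δ ≠ 0)
    (hj : E.c₄ ^ 3 / E.Δ = ((j : ℚ) : L)) (hg : GoodOutside (2 * N) E) : mj j ∣ N := by
  rw [mj_dvd]
  intro p hp hp2 hpd
  by_contra hpN
  obtain ⟨v, hv⟩ := exists_above L hp
  have h1 : ((2 * N : ℕ) : 𝓞 L) ∉ v.asIdeal := by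
    have h2 : ¬ (p : ℤ) ∣ ((2 * N : ℕ) : ℤ) := by
      intro h3
      have h4 : p ∣ 2 * N := by exact_mod_cast h3
      rcases (Nat.Prime.dvd_mul hp).1 h4 with h5 | h5
      · exact hp2 ((Nat.prime_dvd_prime_iff_eq hp Nat.prime_two).1 h5)
      · exact hpN h5
    have h3 := not_mem_of hp hv h2
    rwa [Int.cast_natCast] at h3
  have h2 : Pool.Agent.TH876.FH.GoodAt v E := hg v h1
  have h3 := good_int v E hE h2
  have hnum : ¬ (p : ℤ) ∣ j.num := by
    intro h4
    have h5 : p ∣ j.num.natAbs := Int.natCast_dvd.1 h4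
    have h6 := Nat.dvd_gcd h5 hpd
    rw [j.reduced] at h6
    exact hp.one_lt.ne' (Nat.dvd_one.1 h6)
  rw [hj, fv_le_one_iff, cast_eq, map_div₀, val_int hp hv hnum] at h3
  have hd : (p : ℤ) ∣ (j.den : ℤ) := by exact_mod_cast hpd
  have h4 := val_lt hv hd
  have h5 : v.valuation L ((j.den : ℤ) : L) ≠ 0 :=
    (v.valuation L).ne_zero_iff.2 (by exact_mod_cast j.den_nz)
  have h6 : (1 : WithZero (Multiplicative ℤ)) ≤ v.valuation L ((j.den : ℤ) : L) := by
    rw [div_le_iff₀ (zero_lt_iff.2 h5), one_mul] at h3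
    exact h3
  exact absurd h4 (not_lt.2 h6)

/-- the finite part of the height of a rational number -/
theorem fin_part (j : ℚ) : ∑ᶠ v : HeightOneSpectrum (𝓞 L),
    Real.log (max (FinitePlace.mk v ((j : ℚ) : L)) 1) = Module.finrank ℚ L * Real.log j.den := by
  have hd0 : ((j.den : ℤ) : L) ≠ 0 := by exact_mod_cast j.den_nz
  have h1 := Pool.Agent.TH876.FH.Hj_height (((j.den : ℤ) : L)⁻¹)
  have h2 : ∑ w : InfinitePlace L, (w.mult : ℝ) * Real.log (max (w (((j.den : ℤ) : L)⁻¹)) 1) = 0 := by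
    refine Finset.sum_eq_zero fun w _ => ?_
    have h3 : w (((j.den : ℤ) : L)⁻¹) ≤ 1 := by
      rw [map_inv₀, Int.cast_natCast, InfinitePlace.map_natCast]
      have : (1 : ℝ) ≤ j.den := by exact_mod_cast j.pos
      exact inv_le_one_of_one_le₀ this
    rw [max_eq_right h3, Real.log_one, mul_zero]
  have h3 : logHeight₁ (((j.den : ℤ) : L)⁻¹) = Module.finrank ℚ L * Real.log j.den := by
    rw [logHeight₁_inv, ht_int L (by exact_mod_cast j.den_nz)]
    congr 2
    rw [Int.cast_natCast, abs_of_nonneg (Nat.cast_nonneg _)]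
  rw [h2, zero_add, h3] at h1
  rw [h1]
  refine finsum_congr fun v => ?_
  have e1 : FinitePlace.mk v ((j : ℚ) : L) = fv v ((j : ℚ) : L) := rfl
  have e2 : FinitePlace.mk v (((j.den : ℤ) : L)⁻¹) = fv v (((j.den : ℤ) : L)⁻¹) := rfl
  rw [e1, e2, cast_eq, div_eq_mul_inv, map_mul]
  have hint : ∀ x : ℤ, v.valuation L (x : L) ≤ 1 := by
    intro x
    have h4 : (algebraMap (𝓞 L) L ((x : ℤ) : 𝓞 L)) = ((x : ℤ) : L) := by simp
    rw [← h4]
    exact v.valuation_le_one _
  by_cases hv : ((j.den : ℤ) : 𝓞 L) ∈ v.asIdeal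
  · have h4 : fv v ((j.num : ℤ) : L) = 1 := by
      rw [fv_one_iff]
      refine le_antisymm (hint _) (not_lt.1 fun h5 => ?_)
      have h6 : (algebraMap (𝓞 L) L ((j.num : ℤ) : 𝓞 L)) = ((j.num : ℤ) : L) := by simp
      rw [← h6, v.valuation_lt_one_iff_mem] at h5
      have hcop : IsCoprime j.num (j.den : ℤ) := by
        rw [Int.isCoprime_iff_gcd_eq_one]
        exact j.reduced
      obtain ⟨a, b, hab⟩ := hcop
      have h7 : (1 : 𝓞 L) ∈ v.asIdeal := by
        have e : (1 : 𝓞 L) = (a : 𝓞 L) * ((j.num : ℤ) : 𝓞 L) + (b : 𝓞 L) * ((j.den : ℤ) : 𝓞 L) := by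
          have := congrArg (fun z : ℤ => (z : 𝓞 L)) hab
          push_cast at this
          push_cast
          exact this.symm
        rw [e]
        exact v.asIdeal.add_mem (v.asIdeal.mul_mem_left _ h5) (v.asIdeal.mul_mem_left _ hv)
      exact v.isPrime.ne_top ((Ideal.eq_top_iff_one _).2 h7)
    rw [h4, one_mul]
  · have h4 : fv v ((j.den : ℤ) : L) = 1 := by
      rw [fv_one_iff]
      refine le_antisymm (hint _) (not_lt.1 fun h5 => ?_)
      have h6 : (algebraMap (𝓞 L) L ((j.den : ℤ) : 𝓞 L)) = ((j.den : ℤ) : L) := by simp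
      rw [← h6, v.valuation_lt_one_iff_mem] at h5
      exact hv h5
    have h5 : fv v ((j.num : ℤ) : L) ≤ 1 := (fv_le_one_iff v).2 (hint _)
    rw [map_inv₀, h4, inv_one, mul_one, max_eq_right h5, max_self]

/-- the height of a rational invariant at one period -/
noncomputable def hone (j : ℚ) (τ : UpperHalfPlane) : ℝ := (Real.log j.den + arch τ) / 12

theorem period_rat {j : ℚ} {τ : InfinitePlace L → UpperHalfPlane} (h : IsPeriod ((j : ℚ) : L) τ)
    (w : InfinitePlace L) : jInv (τ w) = (j : ℂ) := by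
  rw [h w, map_ratCast]

theorem period_const {j : ℚ} {τ : UpperHalfPlane} (h : jInv τ = (j : ℂ)) :
    IsPeriod ((j : ℚ) : L) (fun _ : InfinitePlace L => τ) := by
  intro w
  rw [h, map_ratCast]

theorem stable_const (j : ℚ) (τ : UpperHalfPlane) :
    stableHeight ((j : ℚ) : L) (fun _ : InfinitePlace L => τ) = Module.finrank ℚ L * hone j τ := by
  unfold stableHeight hone
  rw [fin_part, ← Finset.sum_mul]
  have h1 : ∑ w : InfinitePlace L, (w.mult : ℝ) = Module.finrank ℚ L := by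
    exact_mod_cast InfinitePlace.sum_mult_eq (K := L)
  rw [h1]
  ring

theorem stable_le (j : ℚ) {τ : InfinitePlace L → UpperHalfPlane} {y : ℝ}
    (h : ∀ w, hone j (τ w) ≤ y) : stableHeight ((j : ℚ) : L) τ ≤ y * Module.finrank ℚ L := by
  unfold stableHeight
  rw [fin_part, div_le_iff₀ (by norm_num)]
  have h1 : ∑ w : InfinitePlace L, (w.mult : ℝ) = Module.finrank ℚ L := by
    exact_mod_cast InfinitePlace.sum_mult_eq (K := L)
  have h2 : ∑ w : InfinitePlace L, (w.mult : ℝ) * arch (τ w) ≤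
      ∑ w : InfinitePlace L, (w.mult : ℝ) * (12 * y - Real.log j.den) := by
    refine Finset.sum_le_sum fun w _ => mul_le_mul_of_nonneg_left ?_ (Nat.cast_nonneg _)
    have h3 := h w
    unfold hone at h3
    rw [div_le_iff₀ (by norm_num)] at h3
    linarith
  rw [← Finset.sum_mul, h1] at h2
  nlinarith

end

variable {A B : ℤ[X]}

/-- the parameters over `N` -/
theorem mem_T {N : ℕ} {t : ℚ} : t ∈ T A B N ↔ aeval t B ≠ 0 ∧ mj (J A B t) ∣ N := by
  constructor
  · rintro ⟨L, _, _, E, h1, h2, h3, h4⟩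
    exact ⟨h1, mj_of_good h2 h3 h4⟩
  · rintro ⟨h1, h2⟩
    obtain ⟨L, _, _, l, h3, h4, h5⟩ := exists_leg (J A B t)
    have h6 : l - 1 ≠ 0 := sub_ne_zero.2 h4
    refine ⟨L, inferInstance, inferInstance, leg l, h1, ?_, leg_j h3 h4 _ h5, fun v hv => ?_⟩
    · rw [leg_Δ]
      exact mul_ne_zero (mul_ne_zero (by norm_num) (pow_ne_zero _ h3)) (pow_ne_zero _ h6)
    · obtain ⟨h7, h8⟩ := unit_of (val_two hv) (val_j_le h2 hv) h5
      exact leg_good (val_two hv) h7 h8

/-- all heights over `N` are bounded by `y` -/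
theorem bounded_iff {N : ℕ} {y : ℝ} : Bounded A B N y ↔
    ∀ t ∈ T A B N, ∀ τ : UpperHalfPlane, jInv τ = ((J A B t : ℚ) : ℂ) → hone (J A B t) τ ≤ y := by
  constructor
  · rintro h t ⟨L, _, _, E, hm⟩ τ hτ
    have h1 := h 1 (fun _ => L) (fun _ => t) (fun _ => E) (fun _ _ => τ) (fun _ => 1)
      (fun _ => ⟨hm, period_const hτ⟩)
    rw [Fin.sum_univ_one, Fin.sum_univ_one, Nat.cast_one, one_mul, one_mul, stable_const] at h1
    have hn : (0 : ℝ) < Module.finrank ℚ L := by exact_mod_cast Module.finrank_pos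
    rw [mul_comm y] at h1
    exact le_of_mul_le_mul_left h1 hn
  · intro h r L _ _ t E τ e hm
    rw [Finset.mul_sum]
    refine Finset.sum_le_sum fun i _ => ?_
    obtain ⟨h1, h2⟩ := hm i
    have h3 := stable_le (L := L i) (J A B (t i)) (τ := τ i) (y := y)
      fun w => h (t i) ⟨L i, inferInstance, inferInstance, E i, h1⟩ _ (period_rat h2 w)
    calc (e i : ℝ) * stableHeight ((J A B (t i) : ℚ) : L i) (τ i) ≤
        (e i : ℝ) * (y * Module.finrank ℚ (L i)) := mul_le_mul_of_nonneg_left h3 (Nat.cast_nonneg _)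
      _ = _ := by ring

end Pool.Agent.L0h51.AB
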