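import Pool.Agent.L0h51.AB.Best

/-! The Legendre family. -/

set_option autoImplicit false
set_option maxHeartbeats 400000

namespace Pool.Agent.L0h51.AB

open Finset Polynomial NumberField IsDedekindDomain

theorem leg_three : ThreePoles legA legB := by
  refine ⟨?_, by simp [legB], by simp [legB], ?_⟩
  · have e1 : legA.map (Int.castRingHom ℚ) = C 256 * (X ^ 2 - X + 1) ^ 3 := by
      simp only [legA, Polynomial.map_mul, Polynomial.map_C, Polynomial.map_pow, Polynomial.map_add,
        Polynomial.map_sub, Polynomial.map_X, Polynomial.map_one]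
      rfl
    have e2 : legB.map (Int.castRingHom ℚ) = X ^ 2 * (X - 1) ^ 2 := by
      simp [legB]
    rw [e1, e2]
    have hu : IsUnit (C (256 : ℚ)) := isUnit_C.2 (by norm_num)
    rw [isCoprime_mul_unit_left_left hu]
    have h1 : IsCoprime (X ^ 2 - X + 1 : ℚ[X]) X := ⟨1, -(X - 1), by ring⟩
    have h2 : IsCoprime (X ^ 2 - X + 1 : ℚ[X]) (X - 1) := ⟨1, -X, by ring⟩
    exact (h1.pow (m := 3) (n := 2)).mul_right (h2.pow (m := 3) (n := 2))
  · have h1 : legA.natDegree = 6 := by
      unfold legA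
      compute_degree!
    have h2 : legB.natDegree = 4 := by
      unfold legB
      compute_degree!
    omega

theorem leg_aeval (t : ℚ) : aeval t legA = 256 * (t ^ 2 - t + 1) ^ 3 ∧
    aeval t legB = t ^ 2 * (t - 1) ^ 2 := by
  constructor
  · simp only [legA, map_mul, aeval_C, map_pow, map_add, map_sub, aeval_X, map_one]
    rfl
  · simp [legB]

theorem leg_ne {t : ℚ} : aeval t legB ≠ 0 ↔ t ≠ 0 ∧ t ≠ 1 := by
  rw [(leg_aeval t).2, mul_ne_zero_iff, pow_ne_zero_iff two_ne_zero, pow_ne_zero_iff two_ne_zero,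
    sub_ne_zero]

theorem leg_J {t : ℚ} (h0 : t ≠ 0) (h1 : t ≠ 1) :
    256 * (t ^ 2 - t + 1) ^ 3 = J legA legB t * (t ^ 2 * (t - 1) ^ 2) := by
  have h2 : t ^ 2 * (t - 1) ^ 2 ≠ 0 :=
    mul_ne_zero (pow_ne_zero _ h0) (pow_ne_zero _ (sub_ne_zero.2 h1))
  unfold J
  rw [(leg_aeval t).1, (leg_aeval t).2, div_mul_cancel₀ _ h2]

/-- the parameters of the Legendre family are realised over `ℚ` -/
theorem leg_T (N : ℕ) : T legA legB N =
    {t : ℚ | t ≠ 0 ∧ t ≠ 1 ∧ GoodOutside (2 * N) (legendre t)} := by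
  ext t
  constructor
  · intro h
    obtain ⟨h1, h2⟩ := mem_T.1 h
    obtain ⟨h3, h4⟩ := leg_ne.1 h1
    refine ⟨h3, h4, fun v hv => ?_⟩
    have h5 := leg_J h3 h4
    have h6 : ((J legA legB t : ℚ) : ℚ) = J legA legB t := rfl
    obtain ⟨h7, h8⟩ := unit_of (val_two hv) (val_j_le h2 hv) h5
    exact leg_good (val_two hv) h7 h8
  · rintro ⟨h3, h4, h5⟩
    refine ⟨ℚ, inferInstance, inferInstance, legendre t, leg_ne.2 ⟨h3, h4⟩, ?_, ?_, h5⟩
    · show (leg t).Δ ≠ 0
      rw [leg_Δ]
      exact mul_ne_zero (mul_ne_zero (by norm_num) (pow_ne_zero _ h3))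
        (pow_ne_zero _ (sub_ne_zero.2 h4))
    · show (leg t).c₄ ^ 3 / (leg t).Δ = _
      rw [leg_j h3 h4 _ (leg_J h3 h4)]
      rfl

/-- the parameters over `ℤ[1/2]` -/
theorem leg_one : T legA legB 1 = {-1, 2, 1 / 2} := by
  have hJ : ∀ t : ℚ, t ≠ 0 → t ≠ 1 → J legA legB t = 1728 → t ∈ T legA legB 1 := by
    intro t h0 h1 h2
    refine mem_T.2 ⟨leg_ne.2 ⟨h0, h1⟩, mj_dvd.2 fun p hp _ h3 => ?_⟩
    rw [h2] at h3
    have h4 : (1728 : ℚ).den = 1 := by norm_num
    rwa [h4] at h3
  have hval : ∀ t : ℚ, t ≠ 0 → t ≠ 1 → 256 * (t ^ 2 - t + 1) ^ 3 = 1728 * (t ^ 2 * (t - 1) ^ 2) →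
      t ∈ T legA legB 1 := by
    intro t h0 h1 h2
    refine hJ t h0 h1 ?_
    have h3 := leg_J h0 h1
    rw [h2] at h3
    have h4 : t ^ 2 * (t - 1) ^ 2 ≠ 0 :=
      mul_ne_zero (pow_ne_zero _ h0) (pow_ne_zero _ (sub_ne_zero.2 h1))
    exact (mul_right_cancel₀ h4 h3).symm
  ext t
  constructor
  · intro h
    obtain ⟨h1, h2⟩ := mem_T.1 h
    obtain ⟨h3, h4⟩ := leg_ne.1 h1
    -- only the prime 2 divides the three members
    have hMM : MM legA = 2 * 256 * 256 * 256 := by
      have e1 : legA.eval 0 = 256 := by simp [legA]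
      have e2 : legA.eval 1 = 256 := by simp [legA]
      have e3 : legA.leadingCoeff = 256 := by
        have hd : legA.natDegree = 6 := by
          unfold legA
          compute_degree!
        unfold Polynomial.leadingCoeff
        rw [hd]
        unfold legA
        rw [coeff_C_mul]
        have h5 : ((X ^ 2 - X + 1 : ℤ[X]) ^ 3).coeff 6 = 1 := by
          have h6 : ((X ^ 2 - X + 1 : ℤ[X]) ^ 3).coeff (3 * 2) = ((X ^ 2 - X + 1 : ℤ[X]).coeff 2) ^ 3 := by
            refine coeff_pow_of_natDegree_le ?_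
            compute_degree
          have h7 : (X ^ 2 - X + 1 : ℤ[X]).coeff 2 = 1 := by
            rw [coeff_add, coeff_sub, coeff_X_pow, coeff_X, coeff_one]
            norm_num
          rw [h7] at h6
          simpa using h6
        rw [h5, mul_one]
      unfold MM
      rw [e1, e2, e3]
      rfl
    have key : ∀ p : ℕ, p.Prime → p ∣ xx t * yy t * zz t → p = 2 := by
      intro p hp hd
      by_contra hne
      have h5 : ¬ p ∣ MM legA := by
        rw [hMM]
        intro h6
        have h7 : p ∣ 2 ^ 25 := by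
          have e : 2 * 256 * 256 * 256 = 2 ^ 25 := by norm_num
          rwa [e] at h6
        exact hne ((Nat.prime_dvd_prime_iff_eq hp Nat.prime_two).1 (hp.dvd_of_dvd_pow h7))
      have h6 := leg_three.pole h1 hp hd h5
      exact hp.one_lt.ne' (Nat.dvd_one.1 (mj_dvd.1 h2 p hp hne h6))
    obtain ⟨s, k1, k2, -⟩ := exists_tri h3 h4
    rw [← k2] at key
    have hs : ∀ j, ∀ p : ℕ, p.Prime → p ∣ s j → p = 2 := by
      intro j p hp hd
      refine key p hp ?_
      unfold Pool.Agent.TH867.SR.N3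
      fin_cases j
      · exact Dvd.dvd.mul_right (Dvd.dvd.mul_right hd _) _
      · exact Dvd.dvd.mul_right (Dvd.dvd.mul_left hd _) _
      · exact Dvd.dvd.mul_left hd _
    have hone : ∀ i j, i ≠ j → s i ≠ 1 → s j = 1 := by
      intro i j hij hi
      obtain ⟨p, hp, hd⟩ := Nat.exists_prime_and_dvd hi
      have hp2 := hs i p hp hd
      by_contra hj
      obtain ⟨q, hq, hd'⟩ := Nat.exists_prime_and_dvd hj
      have hq2 := hs j q hq hd'
      rw [hp2] at hd
      rw [hq2] at hd'
      have h5 := Nat.dvd_gcd hd hd'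
      rw [k1.cop' hij] at h5
      norm_num at h5
    have p0 := k1.pos
    have p1 := k1.le
    have p2 := k1.add
    have q2 : s 2 ≠ 1 := by omega
    have q0 := hone 2 0 (by decide) q2
    have q1 := hone 2 1 (by decide) q2
    have q3 : s 2 = 2 := by omega
    have hN : xx t * yy t * zz t = 2 := by
      rw [← k2]
      unfold Pool.Agent.TH867.SR.N3
      rw [q0, q1, q3]
    have hx : xx t ∣ 2 := ⟨yy t * zz t, by rw [← hN]; ring⟩
    have hz : zz t ∣ 2 := ⟨xx t * yy t, by rw [← hN]; ring⟩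
    have hx' : xx t = 1 ∨ xx t = 2 := (Nat.dvd_prime Nat.prime_two).1 hx
    have hz' : zz t = 1 ∨ zz t = 2 := (Nat.dvd_prime Nat.prime_two).1 hz
    have ht := Rat.num_div_den t
    have hfin : (t.num = -1 ∧ t.den = 1) ∨ (t.num = 2 ∧ t.den = 1) ∨ (t.num = 1 ∧ t.den = 2) := by
      unfold xx yy zz at *
      rcases hx' with h5 | h5 <;> rcases hz' with h6 | h6
      · rw [h5, h6] at hN
        omega
      · rw [h5, h6] at hN
        omega
      · rw [h5, h6] at hN
        omega
      · rw [h5, h6] at hN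
        omega
    rcases hfin with ⟨h5, h6⟩ | ⟨h5, h6⟩ | ⟨h5, h6⟩
    · left
      rw [← ht, h5, h6]
      norm_num
    · right
      left
      rw [← ht, h5, h6]
      norm_num
    · right
      right
      rw [← ht, h5, h6]
      norm_num
  · rintro (h | h | h)
    · rw [h]
      exact hval _ (by norm_num) (by norm_num) (by norm_num)
    · rw [h]
      exact hval _ (by norm_num) (by norm_num) (by norm_num)
    · rw [Set.mem_singleton_iff.1 h]
      exact hval _ (by norm_num) (by norm_num) (by norm_num)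

end Pool.Agent.L0h51.AB
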