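import Pool.Agent.L0h51.AB.Defs

/-! The modular invariant takes all values. -/

set_option autoImplicit false
set_option maxHeartbeats 400000

namespace Pool.Agent.L0h51.AB

open UpperHalfPlane ModularForm Filter Asymptotics Topology SlashInvariantForm
  SlashInvariantFormClass ModularFormClass CuspFormClass MatrixGroups OnePoint
open scoped Real Modular

theorem tendsto_E4 :
    Tendsto (fun τ : ℍ => (ModularForm.E₄ : ℍ → ℂ) τ) atImInfty (𝓝 1) := by
  have h1 : (cuspFunction 1 (ModularForm.E₄ : ℍ → ℂ)) 0 = 1 := by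
    have := EisensteinSeries.E_qExpansion_coeff_zero (k := 4) (by norm_num) ⟨2, rfl⟩
    rw [qExpansion_coeff] at this
    simpa using this
  have ha := (ModularFormClass.analyticAt_cuspFunction_zero ModularForm.E₄ one_pos
    one_mem_strictPeriods_SL).continuousAt.tendsto
  rw [h1] at ha
  have h2 := ha.comp (qParam_tendsto_atImInfty (h := 1) one_pos)
  refine h2.congr fun τ => ?_
  exact SlashInvariantFormClass.eq_cuspFunction ModularForm.E₄ τ one_mem_strictPeriods_SL one_ne_zero

/-- the modular form `E₄ ^ 3 - z Δ` -/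
noncomputable def FF (z : ℂ) : ModularForm 𝒮ℒ 12 :=
  ModularForm.mcast (by decide) (E₄.pow 3) - z • (CuspForm.discriminant : ModularForm 𝒮ℒ 12)

theorem FF_apply (z : ℂ) (τ : ℍ) : FF z τ = E₄ τ ^ 3 - z * discriminant τ := by
  simp only [FF, coe_mcast, coe_pow, sub_apply, Pi.pow_apply]
  rfl

theorem jInv_surj (z : ℂ) : ∃ τ : ℍ, jInv τ = z := by
  by_contra hcon
  push Not at hcon
  have hne : ∀ τ : ℍ, FF z τ ≠ 0 := by
    intro τ h
    apply hcon τ
    rw [FF_apply, sub_eq_zero] at h
    unfold jInv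
    rw [h, mul_div_cancel_right₀ _ (discriminant_ne_zero τ)]
  have hlimF : Tendsto (fun τ : ℍ => FF z τ) atImInfty (𝓝 1) := by
    have h1 : Tendsto (fun τ : ℍ => E₄ τ ^ 3 - z * discriminant τ) atImInfty (𝓝 (1 ^ 3 - z * 0)) :=
      (tendsto_E4.pow 3).sub (tendsto_const_nhds.mul discriminant_isZeroAtImInfty)
    simp only [one_pow, mul_zero, sub_zero] at h1
    exact h1.congr fun τ => (FF_apply z τ).symm
  have hlim : Tendsto (fun τ : ℍ => discriminant τ / FF z τ) atImInfty (𝓝 0) := by
    have h1 : Tendsto (fun τ : ℍ => discriminant τ / FF z τ) atImInfty (𝓝 (0 / 1)) :=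
      Tendsto.div discriminant_isZeroAtImInfty hlimF one_ne_zero
    rwa [zero_div] at h1
  have hslash : ∀ γ : SL(2, ℤ), (fun τ => discriminant τ / FF z τ) ∣[(12 : ℤ) - 12] γ =
      fun τ => discriminant τ / FF z τ := by
    intro γ
    have hγ : (γ : GL (Fin 2) ℝ) ∈ 𝒮ℒ := ⟨γ, rfl⟩
    change (⇑CuspForm.discriminant / ⇑(FF z)) ∣[(12 : ℤ) - 12] γ = ⇑CuspForm.discriminant / ⇑(FF z)
    simp_rw [div_slash_SL2, SL_slash, slash_action_eqn _ _ hγ]
  let G : ModularForm 𝒮ℒ ((12 : ℤ) - 12) :=
    { toFun := fun τ => discriminant τ / FF z τ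
      slash_action_eq' := fun _ ⟨γ, hγ⟩ => hγ ▸ hslash γ
      holo' := CuspForm.discriminant.holo'.div (FF z).holo' hne
      bdd_at_cusps' := by
        intro c hc
        rw [Subgroup.IsArithmetic.isCusp_iff_isCusp_SL2Z] at hc
        rw [isBoundedAt_iff_forall_SL2Z hc]
        intro γ _
        rw [hslash γ, IsBoundedAtImInfty, BoundedAtFilter]
        exact hlim.isBigO_one ℝ }
  obtain ⟨c, hc⟩ := levelOne_weight_zero_const (ModularForm.mcast (show (12 : ℤ) - 12 = 0 by norm_num) G)
  have hc' : ∀ τ : ℍ, discriminant τ / FF z τ = c := fun τ => congrFun hc τ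
  have h1 : c = 0 := by
    have h2 : Tendsto (fun τ : ℍ => discriminant τ / FF z τ) atImInfty (𝓝 c) := by
      refine tendsto_const_nhds.congr fun τ => (hc' τ).symm
    exact tendsto_nhds_unique h2 hlim
  have h2 := hc' UpperHalfPlane.I
  rw [h1, div_eq_zero_iff] at h2
  rcases h2 with h3 | h3
  · exact discriminant_ne_zero _ h3
  · exact hne _ h3

end Pool.Agent.L0h51.AB
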