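import Pool.Agent.L0h51.AB.Fib
import Pool.Agent.L0h51.AB.Surj

/-! The limit law of the set of the parameters over `N`. -/

set_option autoImplicit false
set_option maxHeartbeats 400000

namespace Pool.Agent.L0h51.AB

open Finset Polynomial Filter Topology

variable {A B : ℤ[X]}

/-- the height of a rational number -/
noncomputable def hh (t : ℚ) : ℝ := Real.log (max t.num.natAbs t.den : ℕ)

theorem hh_nonneg (t : ℚ) : 0 ≤ hh t := Real.log_natCast_nonneg _

theorem size_eq (t : ℚ) : size t = Real.log (3 + hh t) := rfl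

theorem one_le_size (t : ℚ) : 1 ≤ size t := by
  rw [size_eq, Real.le_log_iff_exp_le (by linarith [hh_nonneg t])]
  linarith [hh_nonneg t, Real.exp_one_lt_d9]

theorem size_nonneg (t : ℚ) : 0 ≤ size t := zero_le_one.trans (one_le_size t)

/-- logarithms to the power `6` -/
theorem log6 (a δ : ℝ) (ha : 0 ≤ a) (hδ : 0 < δ) : ∃ C : ℝ, 1 ≤ C ∧ ∀ x : ℝ, 1 ≤ x →
    (a + Real.log x) ^ 6 ≤ C * x ^ δ := by
  have h0 : 0 ≤ (a + 6 / δ) ^ 6 := by positivity
  refine ⟨(a + 6 / δ) ^ 6 + 1, by linarith, fun x hx => ?_⟩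
  have hx0 : 0 < x := by linarith
  have h1 : Real.log x ≤ x ^ (δ / 6) / (δ / 6) := Real.log_le_rpow_div hx0.le (by positivity)
  have h2 : 1 ≤ x ^ (δ / 6) := Real.one_le_rpow hx (by positivity)
  have h3 : a + Real.log x ≤ (a + 6 / δ) * x ^ (δ / 6) := by
    have e : x ^ (δ / 6) / (δ / 6) = 6 / δ * x ^ (δ / 6) := by field_simp
    rw [e] at h1
    nlinarith
  have h4 : 0 ≤ a + Real.log x := add_nonneg ha (Real.log_nonneg hx)
  have h5 : (x ^ (δ / 6)) ^ 6 = x ^ δ := by
    rw [← Real.rpow_natCast, ← Real.rpow_mul hx0.le]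
    congr 1
    push_cast
    ring
  calc (a + Real.log x) ^ 6 ≤ ((a + 6 / δ) * x ^ (δ / 6)) ^ 6 := pow_le_pow_left₀ h4 h3 6
    _ = (a + 6 / δ) ^ 6 * x ^ δ := by rw [mul_pow, h5]
    _ ≤ ((a + 6 / δ) ^ 6 + 1) * x ^ δ := by
        have : 0 ≤ x ^ δ := Real.rpow_nonneg hx0.le _
        nlinarith

/-- the height is bounded in terms of the modulus -/
theorem ThreePoles.hh_le (h : ThreePoles A B) {t : ℚ} (ht : aeval t B ≠ 0) {X : ℝ}
    (hm : (mj (J A B t) : ℝ) ≤ X) :
    hh t ≤ Real.exp (3000 * (1 + Real.log (MM A) + Real.log X) ^ 6) := by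
  have hM : (1 : ℝ) ≤ MM A := by exact_mod_cast h.MM_pos
  have hX : 1 ≤ X := le_trans (by exact_mod_cast mj_pos (J A B t)) hm
  have h3 : rad3 t ≤ MM A * mj (J A B t) :=
    Nat.le_of_dvd (Nat.mul_pos h.MM_pos (mj_pos _)) (h.rad3_dvd ht)
  have h4 : (rad3 t : ℝ) ≤ MM A * mj (J A B t) := by exact_mod_cast h3
  have h5 := height3 (h.ne_zero ht) (h.ne_one ht) (X := MM A * X) (by nlinarith)
    (h4.trans (mul_le_mul_of_nonneg_left hm (by linarith)))
  rw [Real.log_mul (by linarith) (by linarith), ← add_assoc] at h5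
  exact h5

theorem ThreePoles.slow (h : ThreePoles A B) : Slow (mm A B) (fun t : Idx B => size t.1) := by
  refine ⟨fun t => size_nonneg _, fun ε hε => ?_⟩
  have hM : (1 : ℝ) ≤ MM A := by exact_mod_cast h.MM_pos
  obtain ⟨C, hC, h1⟩ := log6 (1 + Real.log (MM A)) ε
    (add_nonneg zero_le_one (Real.log_nonneg hM)) hε
  refine ⟨2 + 3000 * C, by linarith, fun t => ?_⟩
  have hm : (1 : ℝ) ≤ (mm A B t : ℝ) := by exact_mod_cast mj_pos _
  have h2 := h.hh_le t.2 le_rfl
  have h3 := h1 _ hm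
  have h4 : 1 ≤ (mm A B t : ℝ) ^ ε := Real.one_le_rpow hm hε.le
  set E : ℝ := 3000 * (1 + Real.log (MM A) + Real.log (mj (J A B t.1) : ℝ)) ^ 6 with hE
  have hE0 : 0 ≤ E := by
    have : (0 : ℝ) ≤ (1 + Real.log (MM A) + Real.log (mj (J A B t.1) : ℝ)) ^ 6 := by positivity
    positivity
  have h5 : 3 + hh t.1 ≤ Real.exp (2 + E) := by
    rw [Real.exp_add]
    have h6 : 1 ≤ Real.exp E := Real.one_le_exp hE0
    have h7 : (4 : ℝ) ≤ Real.exp 2 := by
      have h8 : Real.exp 2 = Real.exp 1 * Real.exp 1 := by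
        rw [← Real.exp_add]
        norm_num
      have := Real.exp_one_gt_d9
      rw [h8]
      nlinarith
    nlinarith
  have h6 : size t.1 ≤ 2 + E := by
    rw [size_eq, Real.log_le_iff_le_exp (by linarith [hh_nonneg t.1])]
    exact h5
  have h7 : E ≤ 3000 * (C * (mm A B t : ℝ) ^ ε) := by
    rw [hE]
    exact mul_le_mul_of_nonneg_left h3 (by norm_num)
  show size t.1 ≤ _
  nlinarith

theorem ThreePoles.thin (h : ThreePoles A B) : ∃ (D : ℝ) (S : ℕ → Finset (Idx B)),
    Thin (mm A B) D (5 / 6) S := by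
  classical
  obtain ⟨D, hD⟩ := h.few (1 / 6) (by norm_num)
  have e : (2 / 3 + 1 / 6 : ℝ) = 5 / 6 := by norm_num
  rw [e] at hD
  refine ⟨D, fun N => if hN : 0 < N then (hD.fin_dvd hN).toFinset else ∅, hD, by norm_num, ?_, ?_⟩
  · intro N hN t
    rw [dif_pos hN, Set.Finite.mem_toFinset]
    rfl
  · intro ε hε
    obtain ⟨C, hC, h1⟩ := h.divs ε hε
    refine ⟨C, hC, fun N hN => h1 N hN _ fun t ht => ?_⟩
    rw [dif_pos hN, Set.Finite.mem_toFinset] at ht
    exact ht

/-- the law of the set of parameters -/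
theorem ThreePoles.law (h : ThreePoles A B) : (∀ N, 0 < N → (T A B N).Finite) ∧
    ∃ μ : Finset ℚ → ℝ, (∀ Φ, 0 ≤ μ Φ) ∧ HasSum μ 1 ∧
      ∀ (k : ℕ) (K : ℝ) (Ψ : Set ℚ → ℝ), (∀ Φ : Finset ℚ, |Ψ Φ| ≤ K * (1 + ∑ t ∈ Φ, size t) ^ k) →
        Summable (fun Φ : Finset ℚ => μ Φ * Ψ Φ) ∧
        Tendsto (fun X : ℕ => (∑ N ∈ Icc 1 X, Ψ (T A B N)) / X) atTop
          (𝓝 (∑' Φ : Finset ℚ, μ Φ * Ψ Φ)) := by
  classical
  obtain ⟨D, S, hS⟩ := h.thin
  set e : Idx B ↪ ℚ := Function.Embedding.subtype _ with he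
  have hTS : ∀ N, 0 < N → T A B N = (((S N).map e : Finset ℚ) : Set ℚ) := by
    intro N hN
    ext t
    rw [mem_T, Finset.mem_coe, Finset.mem_map]
    constructor
    · rintro ⟨h1, h2⟩
      exact ⟨⟨t, h1⟩, (hS.mem N hN _).2 h2, rfl⟩
    · rintro ⟨s, hs, rfl⟩
      exact ⟨s.2, (hS.mem N hN _).1 hs⟩
  refine ⟨fun N hN => by rw [hTS N hN]; exact Finset.finite_toSet _, ?_⟩
  obtain ⟨μ, hμ0, hμ1, hμ⟩ := limit_law hS h.slow
  have hinj : Function.Injective (Finset.map e) := Finset.map_injective e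
  set μ' : Finset ℚ → ℝ := Function.extend (Finset.map e) μ 0 with hμ'
  have hval : ∀ Φ, μ' (Φ.map e) = μ Φ := fun Φ => hinj.extend_apply _ _ _
  have hoff : ∀ Φ, Φ ∉ Set.range (Finset.map e) → μ' Φ = 0 := by
    intro Φ hΦ
    rw [hμ', Function.extend_apply']
    · rfl
    · rintro ⟨Φ', h1⟩
      exact hΦ ⟨Φ', h1⟩
  refine ⟨μ', fun Φ => ?_, ?_, ?_⟩
  · by_cases h1 : Φ ∈ Set.range (Finset.map e)
    · obtain ⟨Φ', rfl⟩ := h1
      rw [hval]
      exact hμ0 _
    · rw [hoff Φ h1]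
  · rw [← hinj.hasSum_iff hoff]
    have e1 : μ' ∘ Finset.map e = μ := by
      funext Φ
      exact hval Φ
    rw [e1]
    exact hμ1
  · intro k K Ψ hΨ
    have hK : 0 ≤ K := by
      have h1 := (abs_nonneg _).trans (hΨ ∅)
      simpa using h1
    have hK1 : 0 < K + 1 := by linarith
    have hW : ∀ Φ : Finset ℚ, 0 ≤ (1 + ∑ t ∈ Φ, size t) ^ k := fun Φ =>
      pow_nonneg (add_nonneg zero_le_one (sum_nonneg fun t _ => size_nonneg t)) _
    obtain ⟨k1, k2⟩ := hμ k (fun Φ => Ψ ((Φ.map e : Finset ℚ) : Set ℚ) / (K + 1)) (fun Φ => by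
      rw [abs_div, abs_of_pos hK1, div_le_iff₀ hK1]
      have h1 := hΨ (Φ.map e)
      rw [sum_map] at h1
      have h2 := hW (Φ.map e)
      rw [sum_map] at h2
      refine h1.trans ?_
      have e1 : ∑ t ∈ Φ, size (e t) = ∑ t ∈ Φ, size t.1 := rfl
      rw [e1] at h2 ⊢
      nlinarith)
    have hoff' : ∀ Φ, Φ ∉ Set.range (Finset.map e) → μ' Φ * Ψ Φ = 0 := fun Φ hΦ => by
      rw [hoff Φ hΦ, zero_mul]
    have e2 : (fun Φ : Finset ℚ => μ' Φ * Ψ Φ) ∘ Finset.map e =
        fun Φ => (K + 1) * (μ Φ * (Ψ ((Φ.map e : Finset ℚ) : Set ℚ) / (K + 1))) := by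
      funext Φ
      show μ' (Φ.map e) * Ψ ((Φ.map e : Finset ℚ) : Set ℚ) = _
      rw [hval]
      field_simp
    have h3 : HasSum (fun Φ : Finset ℚ => μ' Φ * Ψ Φ)
        ((K + 1) * ∑' Φ, μ Φ * (Ψ ((Φ.map e : Finset ℚ) : Set ℚ) / (K + 1))) := by
      rw [← hinj.hasSum_iff hoff', e2]
      exact k1.hasSum.mul_left _
    refine ⟨h3.summable, ?_⟩
    rw [h3.tsum_eq]
    refine (k2.const_mul (K + 1)).congr fun X => ?_
    unfold mean
    rw [← mul_div_assoc, mul_sum]
    congr 1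
    refine sum_congr rfl fun N hN => ?_
    rw [hTS N (mem_Icc.1 hN).1]
    field_simp

/-- the heights -/
theorem ThreePoles.hone_le (h : ThreePoles A B) : ∃ K : ℝ, 0 < K ∧ ∀ (t : ℚ) (τ : UpperHalfPlane),
    jInv τ = ((J A B t : ℚ) : ℂ) → hone (J A B t) τ ≤ K * (1 + hh t) := by
  obtain ⟨c, hc⟩ := Pool.Agent.TH876.FH.ana.2
  set CA : ℝ := ∑ i ∈ range (A.natDegree + 1), |(A.coeff i : ℝ)| with hCA
  set CB : ℝ := ∑ i ∈ range (B.natDegree + 1), |(B.coeff i : ℝ)| with hCB
  have hCA0 : 0 ≤ CA := sum_nonneg fun _ _ => abs_nonneg _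
  have hCB0 : 0 ≤ CB := sum_nonneg fun _ _ => abs_nonneg _
  have hlog : 0 ≤ Real.log (1 + CA + CB) := Real.log_nonneg (by linarith)
  refine ⟨Real.log (1 + CA + CB) + A.natDegree + |c| + 1, by positivity, fun t τ hτ => ?_⟩
  have hht := hh_nonneg t
  have key : Real.log (max (J A B t).num.natAbs (J A B t).den : ℕ) ≤
      Real.log (1 + CA + CB) + A.natDegree * hh t := by
    by_cases ht : aeval t B = 0
    · have h1 : J A B t = 0 := by
        unfold J
        rw [ht, div_zero]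
      rw [h1]
      simp only [Rat.num_zero, Int.natAbs_zero, Rat.den_zero, Nat.zero_max, Nat.cast_one,
        Real.log_one]
      positivity
    · obtain ⟨hV, hJ⟩ := h.J_eq ht
      set M : ℝ := ((max t.num.natAbs t.den : ℕ) : ℝ) with hM
      have hM1 : 1 ≤ M := by
        rw [hM]
        exact_mod_cast le_trans t.pos (le_max_right _ _)
      have ha : |(t.num : ℝ)| ≤ M := by
        rw [hM, ← Int.cast_abs, ← Int.natCast_natAbs, Int.cast_natCast]
        exact_mod_cast le_max_left _ _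
      have hc' : |((t.den : ℤ) : ℝ)| ≤ M := by
        rw [Int.cast_natCast, abs_of_nonneg (Nat.cast_nonneg _), hM]
        exact_mod_cast le_max_right _ _
      have hU : |(UU A t : ℝ)| ≤ CA * M ^ A.natDegree := hom_abs A _ ha hc'
      have hVV : |(VV A B t : ℝ)| ≤ CB * M ^ A.natDegree := by
        unfold VV
        push_cast
        rw [abs_mul, abs_pow]
        have h1 : |(hom B B.natDegree t.num t.den : ℝ)| ≤ CB * M ^ B.natDegree := hom_abs B _ ha hc'
        have h2 : |((t.den : ℕ) : ℝ)| ^ (A.natDegree - B.natDegree) ≤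
            M ^ (A.natDegree - B.natDegree) := by
          refine pow_le_pow_left₀ (abs_nonneg _) ?_ _
          simpa using hc'
        have h3 : M ^ A.natDegree = M ^ B.natDegree * M ^ (A.natDegree - B.natDegree) := by
          rw [← pow_add, Nat.add_sub_cancel' h.inf.le]
        rw [h3, ← mul_assoc]
        exact mul_le_mul h1 h2 (by positivity) (by positivity)
      -- numerator and denominator in lowest terms
      set j := J A B t with hj
      have hVq : (VV A B t : ℚ) ≠ 0 := by exact_mod_cast hV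
      have hd : (j.den : ℚ) ≠ 0 := by exact_mod_cast j.den_nz
      have h1 : (j.num : ℚ) / j.den = (UU A t : ℚ) / VV A B t := by rw [Rat.num_div_den, hJ]
      rw [div_eq_div_iff hd hVq] at h1
      have h2 : j.num * VV A B t = UU A t * j.den := by exact_mod_cast h1
      have hcop : IsCoprime j.num (j.den : ℤ) := by
        rw [Int.isCoprime_iff_gcd_eq_one]
        exact j.reduced
      have h3 : (j.den : ℤ) ∣ VV A B t := by
        refine hcop.symm.dvd_of_dvd_mul_left ?_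
        rw [h2]
        exact Dvd.intro_left _ rfl
      have h4 : j.num ∣ UU A t := by
        refine hcop.dvd_of_dvd_mul_right ?_
        rw [← h2]
        exact Dvd.intro _ rfl
      have h5 : (j.den : ℝ) ≤ |(VV A B t : ℝ)| := by
        have h6 : j.den ≤ (VV A B t).natAbs :=
          Nat.le_of_dvd (Int.natAbs_pos.2 hV) (Int.natCast_dvd.1 h3)
        rw [← Int.cast_abs, ← Int.natCast_natAbs, Int.cast_natCast]
        exact_mod_cast h6
      have hUV : (j.num.natAbs : ℝ) ≤ |(UU A t : ℝ)| := by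
        rcases eq_or_ne (UU A t) 0 with h6 | h6
        · have h7 : j.num = 0 := by
            rw [h6, zero_mul] at h2
            exact (mul_eq_zero.1 h2).resolve_right hV
          rw [h6, h7]
          simp
        · have h7 : j.num.natAbs ≤ (UU A t).natAbs :=
            Nat.le_of_dvd (Int.natAbs_pos.2 h6) (Int.natAbs_dvd_natAbs.2 h4)
          rw [← Int.cast_abs, ← Int.natCast_natAbs (UU A t), Int.cast_natCast]
          exact_mod_cast h7
      have h6 : ((max j.num.natAbs j.den : ℕ) : ℝ) ≤ (1 + CA + CB) * M ^ A.natDegree := by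
        have hMp : 0 < M ^ A.natDegree := by positivity
        rw [Nat.cast_max]
        refine max_le ?_ ?_
        · exact (hUV.trans hU).trans (mul_le_mul_of_nonneg_right (by linarith) hMp.le)
        · exact (h5.trans hVV).trans (mul_le_mul_of_nonneg_right (by linarith) hMp.le)
      have h7 : (0 : ℝ) < ((max j.num.natAbs j.den : ℕ) : ℝ) := by
        exact_mod_cast lt_of_lt_of_le j.pos (le_max_right _ _)
      refine (Real.log_le_log h7 h6).trans (le_of_eq ?_)
      rw [Real.log_mul (by positivity) (by positivity), Real.log_pow]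
      rfl
  have h1 := hc τ
  have e1 : Pool.Agent.TH876.FH.jInv τ = ((J A B t : ℚ) : ℂ) := hτ
  have e2 : Pool.Agent.TH876.FH.arch τ = arch τ := rfl
  rw [e1, e2] at h1
  set j := J A B t with hj
  have hd : (0 : ℝ) < j.den := by exact_mod_cast j.pos
  have h2 : Real.log j.den + Real.log (max ‖((j : ℚ) : ℂ)‖ 1) =
      Real.log (max j.num.natAbs j.den : ℕ) := by
    rw [← Real.log_mul hd.ne' (by positivity)]
    congr 1
    have h3 : ‖((j : ℚ) : ℂ)‖ = (j.num.natAbs : ℝ) / j.den := by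
      have h4 : ((j : ℚ) : ℂ) = ((j.num : ℤ) : ℂ) / ((j.den : ℕ) : ℂ) := by
        have h5 := Rat.num_div_den j
        have h6 : ((j : ℚ) : ℂ) = (((j.num : ℚ) / (j.den : ℚ) : ℚ) : ℂ) := by rw [h5]
        rw [h6]
        push_cast
        rfl
      rw [h4, norm_div, Complex.norm_intCast, Complex.norm_natCast, ← Int.cast_abs,
        ← Int.natCast_natAbs, Int.cast_natCast]
    rw [h3, mul_max_of_nonneg _ _ hd.le, mul_div_cancel₀ _ hd.ne', mul_one, Nat.cast_max]
  unfold hone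
  rw [div_le_iff₀ (by norm_num)]
  have h5 := le_abs_self c
  have h6 : (0 : ℝ) ≤ A.natDegree := Nat.cast_nonneg _
  have h7 := abs_nonneg c
  nlinarith [mul_nonneg h6 hht, mul_nonneg hlog hht, mul_nonneg h7 hht]

end Pool.Agent.L0h51.AB
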