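import Pool.Agent.L0h51.AB.Fam
import Pool.Agent.N141.TS.Frey

/-! Legendre curves over number fields. -/

set_option autoImplicit false
set_option maxHeartbeats 400000

namespace Pool.Agent.L0h51.AB

open Finset Polynomial NumberField IsDedekindDomain
open Pool.Agent.N141.TS (exists_above not_mem_of val_int val_lt)

section
variable {L : Type} [Field L]

/-- the Legendre curve `y² = x (x - 1) (x - l)` -/
def leg (l : L) : WeierstrassCurve L := ⟨0, -(1 + l), 0, l, 0⟩

theorem leg_Δ (l : L) : (leg l).Δ = 16 * l ^ 2 * (l - 1) ^ 2 := by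
  simp only [leg, WeierstrassCurve.Δ, WeierstrassCurve.b₂, WeierstrassCurve.b₄,
    WeierstrassCurve.b₆, WeierstrassCurve.b₈]
  ring

theorem leg_c₄ (l : L) : (leg l).c₄ = 16 * (l ^ 2 - l + 1) := by
  simp only [leg, WeierstrassCurve.c₄, WeierstrassCurve.b₂, WeierstrassCurve.b₄]
  ring

theorem leg_j [CharZero L] {l : L} (h0 : l ≠ 0) (h1 : l ≠ 1) (j : L)
    (h : 256 * (l ^ 2 - l + 1) ^ 3 = j * (l ^ 2 * (l - 1) ^ 2)) :
    (leg l).c₄ ^ 3 / (leg l).Δ = j := by
  have h2 : l - 1 ≠ 0 := sub_ne_zero.2 h1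
  have h3 : (leg l).Δ ≠ 0 := by
    rw [leg_Δ]
    exact mul_ne_zero (mul_ne_zero (by norm_num) (pow_ne_zero _ h0)) (pow_ne_zero _ h2)
  rw [div_eq_iff h3, leg_Δ, leg_c₄]
  linear_combination 16 * h

variable [NumberField L]

/-- good reduction of a Legendre curve -/
theorem leg_good {l : L} {v : HeightOneSpectrum (𝓞 L)} (h2 : v.valuation L 2 = 1)
    (hl : v.valuation L l = 1) (hl1 : v.valuation L (l - 1) = 1) : GoodAt v (leg l) := by
  have e : (1 : WeierstrassCurve.VariableChange L) • leg l = leg l := one_smul _ _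
  refine ⟨1, ?_, ?_, ?_, ?_, ?_, ?_⟩
  · rw [e]
    simp [leg]
  · rw [e]
    show v.valuation L (-(1 + l)) ≤ 1
    rw [Valuation.map_neg]
    refine (Valuation.map_add _ _ _).trans ?_
    rw [map_one, hl, max_self]
  · rw [e]
    simp [leg]
  · rw [e]
    show v.valuation L l ≤ 1
    rw [hl]
  · rw [e]
    simp [leg]
  · rw [e, leg_Δ, map_mul, map_mul, map_pow, map_pow, hl, hl1]
    have h16 : (16 : L) = 2 ^ 4 := by norm_num
    rw [h16, map_pow, h2]
    simp

theorem val_two {N : ℕ} {v : HeightOneSpectrum (𝓞 L)}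
    (hv : ((2 * N : ℕ) : 𝓞 L) ∉ v.asIdeal) : v.valuation L 2 = 1 := by
  have h1 : v.valuation L (algebraMap (𝓞 L) L (2 : 𝓞 L)) ≤ 1 := v.valuation_le_one _
  have h2 : ¬ v.valuation L (algebraMap (𝓞 L) L (2 : 𝓞 L)) < 1 := by
    rw [v.valuation_lt_one_iff_mem]
    intro h3
    apply hv
    push_cast
    exact v.asIdeal.mul_mem_right _ h3
  have h3 : (algebraMap (𝓞 L) L (2 : 𝓞 L)) = (2 : L) := map_ofNat _ _
  rw [h3] at h1 h2
  exact le_antisymm h1 (not_lt.1 h2)

/-- at a prime which does not divide `2N` the invariant is integral if `mj j` divides `N` -/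
theorem val_j_le {j : ℚ} {N : ℕ} (hN : mj j ∣ N) {v : HeightOneSpectrum (𝓞 L)}
    (hv : ((2 * N : ℕ) : 𝓞 L) ∉ v.asIdeal) : v.valuation L ((j : ℚ) : L) ≤ 1 := by
  have hden : v.valuation L ((j.den : ℤ) : L) = 1 := by
    have h1 : v.valuation L (algebraMap (𝓞 L) L ((j.den : ℤ) : 𝓞 L)) ≤ 1 := v.valuation_le_one _
    have h2 : ¬ v.valuation L (algebraMap (𝓞 L) L ((j.den : ℤ) : 𝓞 L)) < 1 := by
      rw [v.valuation_lt_one_iff_mem]
      intro h3
      apply hv
      -- a prime divisor of the denominator is in `v`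
      have h4 : ∃ p ∈ j.den.primeFactors, (p : 𝓞 L) ∈ v.asIdeal := by
        have h5 : ((∏ p ∈ j.den.primeFactors, p ^ j.den.factorization p : ℕ) : 𝓞 L) ∈ v.asIdeal := by
          have h6 := Nat.prod_factorization_pow_eq_self j.den_nz
          rw [Finsupp.prod, Nat.support_factorization] at h6
          rw [h6]
          exact_mod_cast h3
        push_cast at h5
        obtain ⟨p, hp, h7⟩ := (v.isPrime.prod_mem_iff).1 h5
        exact ⟨p, hp, v.isPrime.mem_of_pow_mem _ h7⟩
      obtain ⟨p, hp, h5⟩ := h4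
      have hpp := Nat.prime_of_mem_primeFactors hp
      have h6 : p ∣ 2 * N := by
        by_cases h2 : p = 2
        · rw [h2]
          exact Dvd.intro _ rfl
        · exact Dvd.dvd.mul_left (mj_dvd.1 hN p hpp h2 (Nat.dvd_of_mem_primeFactors hp)) _
      obtain ⟨c, hc⟩ := h6
      rw [hc]
      push_cast
      exact v.asIdeal.mul_mem_right _ h5
    have h3 : (algebraMap (𝓞 L) L ((j.den : ℤ) : 𝓞 L)) = ((j.den : ℤ) : L) := by simp
    rw [h3] at h1 h2
    exact le_antisymm h1 (not_lt.1 h2)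
  have h1 : ((j : ℚ) : L) = ((j.num : ℤ) : L) / ((j.den : ℤ) : L) := by
    have h2 := Rat.num_div_den j
    have h3 : ((j : ℚ) : L) = (((j.num : ℚ) / (j.den : ℚ) : ℚ) : L) := by rw [h2]
    rw [h3]
    push_cast
    rfl
  rw [h1, map_div₀, hden, div_one]
  have h2 : (algebraMap (𝓞 L) L ((j.num : ℤ) : 𝓞 L)) = ((j.num : ℤ) : L) := by simp
  rw [← h2]
  exact v.valuation_le_one _

/-- `l` and `l - 1` are units if the invariant is integral -/
theorem unit_of {l j : L} {v : HeightOneSpectrum (𝓞 L)} (h2 : v.valuation L 2 = 1)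
    (hj : v.valuation L j ≤ 1) (h : 256 * (l ^ 2 - l + 1) ^ 3 = j * (l ^ 2 * (l - 1) ^ 2)) :
    v.valuation L l = 1 ∧ v.valuation L (l - 1) = 1 := by
  set V := v.valuation L with hV
  have h256 : V (256 : L) = 1 := by
    have e : (256 : L) = 2 ^ 8 := by norm_num
    rw [e, map_pow, h2, one_pow]
  have hE : V (l ^ 2 - l + 1) ^ 3 = V j * (V l ^ 2 * V (l - 1) ^ 2) := by
    have h3 := congrArg V h
    rw [map_mul, map_mul, map_mul, map_pow, map_pow, map_pow, h256, one_mul] at h3
    exact h3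
  have h1 : V l = 1 := by
    rcases lt_trichotomy (V l) 1 with h3 | h3 | h3
    · exfalso
      have h4 : V (l - 1) = 1 := by
        have : V (1 : L) = 1 := map_one _
        rw [Valuation.map_sub_swap, Valuation.map_sub_eq_of_lt_left _ (by rwa [this]), this]
      have h5 : V (l ^ 2 - l) < 1 := by
        have e : l ^ 2 - l = l * (l - 1) := by ring
        rw [e, map_mul, h4, mul_one]
        exact h3
      have h6 : V (l ^ 2 - l + 1) = 1 := by
        have : V (1 : L) = 1 := map_one _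
        rw [Valuation.map_add_eq_of_lt_right _ (by rwa [this]), this]
      rw [h6, h4, one_pow, one_pow, mul_one] at hE
      have h7 : V l ^ 2 < 1 := pow_lt_one₀ zero_le h3 two_ne_zero
      have h8 : V j * V l ^ 2 < 1 := by
        calc V j * V l ^ 2 ≤ 1 * V l ^ 2 := mul_le_mul_left hj _
          _ < 1 := by rwa [one_mul]
      rw [← hE] at h8
      exact lt_irrefl _ h8
    · exact h3
    · exfalso
      have h4 : V (l - 1) = V l := by
        have : V (1 : L) = 1 := map_one _
        rw [Valuation.map_sub_eq_of_lt_left _ (by rwa [this])]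
      have h5 : V (l ^ 2 - l) = V l ^ 2 := by
        have e : l ^ 2 - l = l * (l - 1) := by ring
        rw [e, map_mul, h4, sq]
      have h5' : 1 < V l ^ 2 := one_lt_pow₀ h3 two_ne_zero
      have h6 : V (l ^ 2 - l + 1) = V l ^ 2 := by
        have : V (1 : L) = 1 := map_one _
        rw [Valuation.map_add_eq_of_lt_left _ (by rwa [this, h5]), h5]
      rw [h6, h4] at hE
      have h7 : V j * (V l ^ 2 * V l ^ 2) ≤ 1 * (V l ^ 2 * V l ^ 2) := mul_le_mul_left hj _
      rw [← hE, one_mul] at h7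
      have h8 : V l ^ 2 * V l ^ 2 < (V l ^ 2) ^ 3 := by
        have h9 : (0 : WithZero (Multiplicative ℤ)) < V l ^ 2 * V l ^ 2 := by
          have : (0 : WithZero (Multiplicative ℤ)) < V l ^ 2 := lt_trans zero_lt_one h5'
          exact mul_pos this this
        calc V l ^ 2 * V l ^ 2 = V l ^ 2 * V l ^ 2 * 1 := (mul_one _).symm
          _ < V l ^ 2 * V l ^ 2 * V l ^ 2 := (mul_lt_mul_iff_right₀ h9).2 h5'
          _ = (V l ^ 2) ^ 3 := by rw [pow_succ (V l ^ 2) 2, pow_two (V l ^ 2)]
      exact absurd h8 (not_lt.2 h7)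
  refine ⟨h1, ?_⟩
  have h3 : V (l - 1) ≤ 1 := by
    refine (Valuation.map_sub _ _ _).trans ?_
    rw [h1, map_one, max_self]
  rcases lt_or_eq_of_le h3 with h4 | h4
  · exfalso
    have h5 : V (l ^ 2 - l) < 1 := by
      have e : l ^ 2 - l = l * (l - 1) := by ring
      rw [e, map_mul, h1, one_mul]
      exact h4
    have h6 : V (l ^ 2 - l + 1) = 1 := by
      have : V (1 : L) = 1 := map_one _
      rw [Valuation.map_add_eq_of_lt_right _ (by rwa [this]), this]
    rw [h6, h1, one_pow, one_pow, one_mul] at hE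
    have h7 : V (l - 1) ^ 2 < 1 := pow_lt_one₀ zero_le h4 two_ne_zero
    have h8 : V j * V (l - 1) ^ 2 < 1 := by
      calc V j * V (l - 1) ^ 2 ≤ 1 * V (l - 1) ^ 2 := mul_le_mul_left hj _
        _ < 1 := by rwa [one_mul]
    rw [← hE] at h8
    exact lt_irrefl _ h8
  · exact h4

end

/-- every rational invariant is the invariant of a Legendre curve over some number field -/
theorem exists_leg (j : ℚ) : ∃ (L : Type) (_ : Field L) (_ : NumberField L) (l : L), l ≠ 0 ∧ l ≠ 1 ∧
    256 * (l ^ 2 - l + 1) ^ 3 = (j : L) * (l ^ 2 * (l - 1) ^ 2) := by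
  set P : ℚ[X] := C 256 * (X ^ 2 - X + 1) ^ 3 - C j * (X ^ 2 * (X - 1) ^ 2) with hP
  have hdeg : P.natDegree = 6 := by
    rw [hP]
    compute_degree!
  have hne : (P.map (algebraMap ℚ P.SplittingField)).degree ≠ 0 := by
    rw [degree_map]
    exact degree_ne_of_natDegree_ne (by rw [hdeg]; norm_num)
  have : NumberField P.SplittingField := {
    to_charZero := charZero_of_injective_algebraMap (algebraMap ℚ _).injective
    to_finiteDimensional := inferInstance }
  obtain ⟨l, hl⟩ := (SplittingField.splits P).exists_eval_eq_zero hne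
  have h1 : 256 * (l ^ 2 - l + 1) ^ 3 = ((j : ℚ) : P.SplittingField) * (l ^ 2 * (l - 1) ^ 2) := by
    rw [eval_map] at hl
    have h2 : eval₂ (algebraMap ℚ P.SplittingField) l
      (C 256 * (X ^ 2 - X + 1) ^ 3 - C j * (X ^ 2 * (X - 1) ^ 2)) = 0 := hl
    simp only [eval₂_sub, eval₂_mul, eval₂_pow, eval₂_add, eval₂_C, eval₂_X, eval₂_one] at h2
    rw [eq_ratCast, eq_ratCast] at h2
    push_cast at h2
    exact sub_eq_zero.1 h2
  refine ⟨P.SplittingField, inferInstance, inferInstance, l, ?_, ?_, h1⟩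
  · rintro rfl
    norm_num at h1
  · rintro rfl
    norm_num at h1

end Pool.Agent.L0h51.AB
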