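import Pool.Agent.L0h51.AB.Dens

/-! All moments of sums over the moduli which divide `N`. -/

set_option autoImplicit false
set_option maxHeartbeats 400000

namespace Pool.Agent.L0h51.AB

open Finset Filter Topology

variable {ι : Type} {m : ι → ℕ} {D θ : ℝ}

/-- few moduli, and few of them divide a given integer -/
structure Thin (m : ι → ℕ) (D θ : ℝ) (S : ℕ → Finset ι) : Prop where
  few : Few m D θ
  lt1 : θ < 1
  mem : ∀ N, 0 < N → ∀ i, i ∈ S N ↔ m i ∣ N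
  div : ∀ ε : ℝ, 0 < ε → ∃ C : ℝ, 1 ≤ C ∧ ∀ N, 0 < N → ((S N).card : ℝ) ≤ C * (N : ℝ) ^ ε

/-- a weight of slow growth -/
structure Slow (m : ι → ℕ) (w : ι → ℝ) : Prop where
  nn : ∀ i, 0 ≤ w i
  le : ∀ ε : ℝ, 0 < ε → ∃ C : ℝ, 1 ≤ C ∧ ∀ i, w i ≤ C * (m i : ℝ) ^ ε

variable {S : ℕ → Finset ι} {w : ι → ℝ}

/-- the pointwise bound -/
theorem ptw (h : Thin m D θ S) (hw : Slow m w) {k : ℕ} (hk : 0 < k) {e : ℝ} (he : 0 < e) :
    ∃ A : ℝ, 0 < A ∧ ∀ N, 0 < N → (∑ i ∈ S N, w i) ^ k ≤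
      A * ∑ i ∈ S N, (m i : ℝ) ^ ((k * k + 2 * k) * e) * ∑ q ∈ (N / m i).divisors, (q : ℝ) ^ (-e) := by
  classical
  obtain ⟨C1, hC1, h1⟩ := hw.le e he
  obtain ⟨C2, hC2, h2⟩ := h.div e he
  refine ⟨C1 ^ k * C2 ^ k, by positivity, fun N hN => ?_⟩
  have : Nonempty (Fin k) := ⟨⟨0, hk⟩⟩
  have hmax : ∀ s : Fin k → ι, ∃ j₀ : Fin k, ∀ j, m (s j) ≤ m (s j₀) := fun s =>
    Finite.exists_max fun j => m (s j)
  choose j₀ hj₀ using hmax
  have e1 : (∑ i ∈ S N, w i) ^ k =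
      ∑ s ∈ Fintype.piFinset (fun _ : Fin k => S N), ∏ j, w (s j) := by
    rw [← Finset.prod_univ_sum, prod_const, card_univ, Fintype.card_fin]
  set l : (Fin k → ι) → ℕ := fun s => univ.lcm (fun j => m (s j)) with hl
  have hlN : ∀ s ∈ Fintype.piFinset (fun _ : Fin k => S N), l s ∣ N := by
    intro s hs
    rw [hl]
    refine Finset.lcm_dvd fun j _ => ?_
    exact (h.mem N hN _).1 (Fintype.mem_piFinset.1 hs j)
  have hml : ∀ s j, m (s j) ∣ l s := fun s j => Finset.dvd_lcm (mem_univ j)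
  have hlle : ∀ s, l s ≤ m (s (j₀ s)) ^ k := by
    intro s
    have h3 : l s ∣ ∏ j, m (s j) := Finset.lcm_dvd fun j _ => Finset.dvd_prod_of_mem _ (mem_univ j)
    have h4 : 0 < ∏ j, m (s j) := prod_pos fun j _ => h.few.pos _
    refine (Nat.le_of_dvd h4 h3).trans ?_
    refine (prod_le_pow_card _ _ _ fun j _ => hj₀ s j).trans ?_
    rw [card_univ, Fintype.card_fin]
  set g : (Fin k → ι) → (Σ _ : ι, ℕ) := fun s => ⟨s (j₀ s), l s / m (s (j₀ s))⟩ with hg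
  have hmaps : ∀ s ∈ Fintype.piFinset (fun _ : Fin k => S N),
      g s ∈ (S N).sigma (fun i => (N / m i).divisors) := by
    intro s hs
    rw [hg, mem_sigma]
    refine ⟨Fintype.mem_piFinset.1 hs _, ?_⟩
    have h3 := hlN s hs
    have h4 := hml s (j₀ s)
    rw [Nat.mem_divisors]
    refine ⟨Nat.div_dvd_div h4 h3, ?_⟩
    have h5 : 0 < N / m (s (j₀ s)) := Nat.div_pos (Nat.le_of_dvd hN (h4.trans h3)) (h.few.pos _)
    exact h5.ne'
  rw [e1, ← sum_fiberwise_of_maps_to hmaps, mul_sum, sum_sigma]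
  refine sum_le_sum fun i hi => ?_
  rw [mul_sum, mul_sum]
  refine sum_le_sum fun q hq => ?_
  have hmi : (1 : ℝ) ≤ m i := by exact_mod_cast h.few.pos i
  have hmi0 : (0 : ℝ) < m i := by linarith
  rcases (filter (fun s => g s = ⟨i, q⟩) (Fintype.piFinset fun _ : Fin k => S N)).eq_empty_or_nonempty with hemp | ⟨s₀, hs₀⟩
  · rw [hemp, sum_empty]
    positivity
  have key : ∀ s ∈ filter (fun s => g s = ⟨i, q⟩) (Fintype.piFinset fun _ : Fin k => S N),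
      s (j₀ s) = i ∧ l s = m i * q ∧ 0 < q := by
    intro s hs
    rw [mem_filter] at hs
    have h3 : (⟨s (j₀ s), l s / m (s (j₀ s))⟩ : Σ _ : ι, ℕ) = ⟨i, q⟩ := hs.2
    rw [Sigma.mk.injEq] at h3
    obtain ⟨h4, h5⟩ := h3
    have h5' : l s / m (s (j₀ s)) = q := eq_of_heq h5
    rw [h4] at h5'
    have h6 : m i ∣ l s := by
      rw [← h4]
      exact hml s _
    have h7 : l s = m i * q := by
      rw [← h5', Nat.mul_div_cancel' h6]
    refine ⟨h4, h7, ?_⟩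
    have h8 : l s ∣ N := hlN s hs.1
    have h9 : 0 < l s := Nat.pos_of_dvd_of_pos h8 hN
    rw [h7] at h9
    exact Nat.pos_of_mul_pos_left h9 |> fun _ => Nat.pos_of_ne_zero (by
      rintro rfl
      simp at h9)
  obtain ⟨-, k2, k3⟩ := key s₀ hs₀
  have hqr : (0 : ℝ) < q := by exact_mod_cast k3
  have hmq : ((m i * q : ℕ) : ℝ) ≤ (m i : ℝ) ^ k := by
    have h3 := hlle s₀
    rw [(key s₀ hs₀).1, k2] at h3
    exact_mod_cast h3
  have hterm : ∀ s ∈ filter (fun s => g s = ⟨i, q⟩) (Fintype.piFinset fun _ : Fin k => S N),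
      ∏ j, w (s j) ≤ C1 ^ k * (m i : ℝ) ^ (k * e) := by
    intro s hs
    have h3 := (key s hs).1
    calc ∏ j, w (s j) ≤ ∏ _j : Fin k, (C1 * (m i : ℝ) ^ e) := by
          refine prod_le_prod (fun j _ => hw.nn _) fun j _ => ?_
          refine (h1 (s j)).trans ?_
          refine mul_le_mul_of_nonneg_left ?_ (by linarith)
          refine Real.rpow_le_rpow (Nat.cast_nonneg _) ?_ he.le
          have h4 := hj₀ s j
          rw [h3] at h4
          exact_mod_cast h4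
      _ = C1 ^ k * (m i : ℝ) ^ (k * e) := by
          rw [prod_const, card_univ, Fintype.card_fin, mul_pow]
          congr 1
          rw [mul_comm (k : ℝ) e, Real.rpow_mul hmi0.le, Real.rpow_natCast]
  have hcard : (#(filter (fun s => g s = ⟨i, q⟩) (Fintype.piFinset fun _ : Fin k => S N)) : ℝ) ≤
      C2 ^ k * (m i : ℝ) ^ ((k * k : ℝ) * e) := by
    have h3 : filter (fun s => g s = ⟨i, q⟩) (Fintype.piFinset fun _ : Fin k => S N) ⊆
        Fintype.piFinset (fun _ : Fin k => S (m i * q)) := by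
      intro s hs
      rw [Fintype.mem_piFinset]
      intro j
      rw [h.mem _ (Nat.mul_pos (h.few.pos i) k3), ← (key s hs).2.1]
      exact hml s j
    have h4 := card_le_card h3
    rw [Fintype.card_piFinset_const] at h4
    have h5 := h2 (m i * q) (Nat.mul_pos (h.few.pos i) k3)
    calc (#(filter (fun s => g s = ⟨i, q⟩) (Fintype.piFinset fun _ : Fin k => S N)) : ℝ) ≤
        (#(S (m i * q)) : ℝ) ^ k := by exact_mod_cast h4
      _ ≤ (C2 * ((m i * q : ℕ) : ℝ) ^ e) ^ k := pow_le_pow_left₀ (Nat.cast_nonneg _) h5 _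
      _ ≤ (C2 * ((m i : ℝ) ^ k) ^ e) ^ k := by
          refine pow_le_pow_left₀ (by positivity) ?_ _
          exact mul_le_mul_of_nonneg_left (Real.rpow_le_rpow (Nat.cast_nonneg _) hmq he.le)
            (by linarith)
      _ = C2 ^ k * (m i : ℝ) ^ ((k * k : ℝ) * e) := by
          rw [mul_pow]
          congr 1
          rw [← Real.rpow_natCast (m i : ℝ) k, ← Real.rpow_mul hmi0.le, ← Real.rpow_natCast,
            ← Real.rpow_mul hmi0.le]
          congr 1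
          ring
  have hq1 : 1 ≤ (m i : ℝ) ^ ((k : ℝ) * e) * (q : ℝ) ^ (-e) := by
    have h3 : (q : ℝ) ≤ (m i : ℝ) ^ k := by
      refine le_trans ?_ hmq
      push_cast
      nlinarith
    have h4 : (q : ℝ) ^ e ≤ (m i : ℝ) ^ ((k : ℝ) * e) := by
      rw [Real.rpow_mul hmi0.le, Real.rpow_natCast]
      exact Real.rpow_le_rpow hqr.le h3 he.le
    rw [Real.rpow_neg hqr.le, ← div_eq_mul_inv, le_div_iff₀ (by positivity), one_mul]
    exact h4
  calc ∑ s ∈ filter (fun s => g s = ⟨i, q⟩) (Fintype.piFinset fun _ : Fin k => S N), ∏ j, w (s j) ≤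
      #(filter (fun s => g s = ⟨i, q⟩) (Fintype.piFinset fun _ : Fin k => S N)) •
        (C1 ^ k * (m i : ℝ) ^ (k * e)) := sum_le_card_nsmul _ _ _ hterm
    _ = (#(filter (fun s => g s = ⟨i, q⟩) (Fintype.piFinset fun _ : Fin k => S N)) : ℝ) *
        (C1 ^ k * (m i : ℝ) ^ (k * e)) := by rw [nsmul_eq_mul]
    _ ≤ (C2 ^ k * (m i : ℝ) ^ ((k * k : ℝ) * e)) * (C1 ^ k * (m i : ℝ) ^ (k * e)) :=
        mul_le_mul_of_nonneg_right hcard (by positivity)
    _ ≤ ((C2 ^ k * (m i : ℝ) ^ ((k * k : ℝ) * e)) * (C1 ^ k * (m i : ℝ) ^ (k * e))) *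
        ((m i : ℝ) ^ ((k : ℝ) * e) * (q : ℝ) ^ (-e)) := le_mul_of_one_le_right (by positivity) hq1
    _ = C1 ^ k * C2 ^ k * ((m i : ℝ) ^ ((k * k + 2 * k) * e) * (q : ℝ) ^ (-e)) := by
        have h3 : (m i : ℝ) ^ (((k : ℝ) * k + 2 * k) * e) =
            (m i : ℝ) ^ ((k * k : ℝ) * e) * (m i : ℝ) ^ (k * e) * (m i : ℝ) ^ ((k : ℝ) * e) := by
          rw [← Real.rpow_add hmi0, ← Real.rpow_add hmi0]
          congr 1
          ring
        rw [h3]
        ring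

/-- the inner sum -/
theorem inner_le (n X : ℕ) (hn : 0 < n) {e : ℝ} (he : 0 < e) :
    ∑ N ∈ (Icc 1 X).filter (fun N => n ∣ N), ∑ q ∈ (N / n).divisors, (q : ℝ) ^ (-e) ≤
      X * ((n : ℝ))⁻¹ * ∑' q : ℕ, ((q : ℝ) ^ (1 + e))⁻¹ := by
  classical
  have hsum : Summable fun q : ℕ => ((q : ℝ) ^ (1 + e))⁻¹ :=
    Real.summable_nat_rpow_inv.2 (by linarith)
  rw [Finset.sum_comm' (s := (Icc 1 X).filter (fun N => n ∣ N)) (t := fun N => (N / n).divisors)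
    (t' := Icc 1 X) (s' := fun q => (Icc 1 X).filter (fun N => n * q ∣ N))]
  · have h1 : ∀ q ∈ Icc 1 X, ∑ N ∈ (Icc 1 X).filter (fun N => n * q ∣ N), (q : ℝ) ^ (-e) ≤
        X * ((n : ℝ))⁻¹ * ((q : ℝ) ^ (1 + e))⁻¹ := by
      intro q hq
      rw [mem_Icc] at hq
      have hq0 : (0 : ℝ) < q := by exact_mod_cast hq.1
      rw [sum_const, nsmul_eq_mul, count_dvd]
      have h2 : ((X / (n * q) : ℕ) : ℝ) ≤ X / (n * q : ℕ) := Nat.cast_div_le
      refine (mul_le_mul_of_nonneg_right h2 (by positivity)).trans (le_of_eq ?_)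
      rw [Real.rpow_add hq0, Real.rpow_one, Real.rpow_neg hq0.le, mul_inv]
      push_cast
      rw [div_eq_mul_inv, mul_inv]
      ring
    refine (sum_le_sum h1).trans ?_
    rw [← mul_sum]
    exact mul_le_mul_of_nonneg_left (hsum.sum_le_tsum _ fun q _ => by positivity) (by positivity)
  · intro N q
    rw [mem_filter, mem_Icc, Nat.mem_divisors, mem_filter, mem_Icc, mem_Icc]
    constructor
    · rintro ⟨⟨⟨h1, h2⟩, c, rfl⟩, h4, h5⟩
      rw [Nat.mul_div_cancel_left _ hn] at h4 h5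
      have h6 : q ≤ c := Nat.le_of_dvd (Nat.pos_of_ne_zero h5) h4
      have h7 : 0 < q := Nat.pos_of_dvd_of_pos h4 (Nat.pos_of_ne_zero h5)
      refine ⟨⟨⟨h1, h2⟩, Nat.mul_dvd_mul_left n h4⟩, h7, ?_⟩
      have h8 : c ≤ n * c := Nat.le_mul_of_pos_left c hn
      omega
    · rintro ⟨⟨⟨h1, h2⟩, c, rfl⟩, h4, h5⟩
      refine ⟨⟨⟨h1, h2⟩, ⟨q * c, by ring⟩⟩, ?_, ?_⟩
      · rw [mul_assoc, Nat.mul_div_cancel_left _ hn]
        exact Dvd.intro _ rfl
      · rw [mul_assoc, Nat.mul_div_cancel_left _ hn]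
        have h6 : 0 < n * q * c := by omega
        intro h7
        rw [mul_assoc, h7] at h6
        omega

/-- all moments are bounded -/
theorem moment0 (h : Thin m D θ S) (hw : Slow m w) {k : ℕ} (hk : 0 < k) :
    ∃ K : ℝ, 0 < K ∧ ∀ X : ℕ, ∑ N ∈ Icc 1 X, (∑ i ∈ S N, w i) ^ k ≤ K * X := by
  classical
  have hθ := h.lt1
  set a : ℝ := (1 - θ) / 2 with ha
  have ha0 : 0 < a := by rw [ha]; linarith
  have hkk : (0 : ℝ) < k * k + 2 * k := by positivity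
  set e : ℝ := a / (k * k + 2 * k) with he
  have he0 : 0 < e := by positivity
  have hae : ((k : ℝ) * k + 2 * k) * e = a := by
    rw [he]
    field_simp
  obtain ⟨A, hA, h1⟩ := ptw h hw hk he0
  rw [hae] at h1
  have hs1 : Summable fun i => (m i : ℝ) ^ (-(1 - a)) := h.few.summable (by rw [ha]; linarith)
  refine ⟨A * ((∑' i, (m i : ℝ) ^ (-(1 - a))) * ∑' q : ℕ, ((q : ℝ) ^ (1 + e))⁻¹) + 1, ?_, ?_⟩
  · have h2 : 0 ≤ ∑' i, (m i : ℝ) ^ (-(1 - a)) := tsum_nonneg fun i => by positivity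
    have h3 : 0 ≤ ∑' q : ℕ, ((q : ℝ) ^ (1 + e))⁻¹ := tsum_nonneg fun i => by positivity
    positivity
  intro X
  have h2 : ∑ N ∈ Icc 1 X, (∑ i ∈ S N, w i) ^ k ≤ ∑ N ∈ Icc 1 X,
      A * ∑ i ∈ S N, (m i : ℝ) ^ a * ∑ q ∈ (N / m i).divisors, (q : ℝ) ^ (-e) :=
    sum_le_sum fun N hN => h1 N (mem_Icc.1 hN).1
  refine h2.trans ?_
  rw [← mul_sum]
  have h3 : ∑ N ∈ Icc 1 X, ∑ i ∈ S N, (m i : ℝ) ^ a * ∑ q ∈ (N / m i).divisors, (q : ℝ) ^ (-e) =
      ∑ i ∈ (Icc 1 X).biUnion S, ∑ N ∈ (Icc 1 X).filter (fun N => m i ∣ N),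
        (m i : ℝ) ^ a * ∑ q ∈ (N / m i).divisors, (q : ℝ) ^ (-e) := by
    refine Finset.sum_comm' fun N i => ?_
    rw [mem_filter, mem_biUnion]
    constructor
    · rintro ⟨hN, hi⟩
      exact ⟨⟨hN, (h.mem N (mem_Icc.1 hN).1 i).1 hi⟩, N, hN, hi⟩
    · rintro ⟨⟨hN, hi⟩, -⟩
      exact ⟨hN, (h.mem N (mem_Icc.1 hN).1 i).2 hi⟩
  rw [h3]
  have h4 : ∀ i ∈ (Icc 1 X).biUnion S, ∑ N ∈ (Icc 1 X).filter (fun N => m i ∣ N),
      (m i : ℝ) ^ a * ∑ q ∈ (N / m i).divisors, (q : ℝ) ^ (-e) ≤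
      (X * ∑' q : ℕ, ((q : ℝ) ^ (1 + e))⁻¹) * (m i : ℝ) ^ (-(1 - a)) := by
    intro i _
    have hmi : (0 : ℝ) < m i := by exact_mod_cast h.few.pos i
    rw [← mul_sum]
    refine (mul_le_mul_of_nonneg_left (inner_le (m i) X (h.few.pos i) he0)
      (by positivity)).trans (le_of_eq ?_)
    have h5 : (m i : ℝ) ^ (-(1 - a)) = (m i : ℝ) ^ a * ((m i : ℝ))⁻¹ := by
      rw [← Real.rpow_neg_one, ← Real.rpow_add hmi]
      congr 1
      ring
    rw [h5]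
    ring
  refine (mul_le_mul_of_nonneg_left (sum_le_sum h4) hA.le).trans ?_
  rw [← mul_sum]
  have h5 : ∑ i ∈ (Icc 1 X).biUnion S, (m i : ℝ) ^ (-(1 - a)) ≤ ∑' i, (m i : ℝ) ^ (-(1 - a)) :=
    hs1.sum_le_tsum _ fun i _ => by positivity
  have h6 : 0 ≤ ∑' q : ℕ, ((q : ℝ) ^ (1 + e))⁻¹ := tsum_nonneg fun i => by positivity
  have h7 := mul_le_mul_of_nonneg_left (mul_le_mul_of_nonneg_left h5
    (mul_nonneg (Nat.cast_nonneg X) h6)) hA.le
  refine h7.trans ?_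
  have h8 : (0 : ℝ) ≤ X := Nat.cast_nonneg _
  nlinarith

theorem moment (h : Thin m D θ S) (hw : Slow m w) (k : ℕ) :
    ∃ K : ℝ, 0 < K ∧ ∀ X : ℕ, ∑ N ∈ Icc 1 X, (1 + ∑ i ∈ S N, w i) ^ k ≤ K * X := by
  rcases Nat.eq_zero_or_pos k with rfl | hk
  · refine ⟨1, one_pos, fun X => ?_⟩
    simp
  obtain ⟨K, hK, h1⟩ := moment0 h hw hk
  refine ⟨2 ^ (k - 1) * (1 + K), by positivity, fun X => ?_⟩
  have h2 : ∀ N ∈ Icc 1 X, (1 + ∑ i ∈ S N, w i) ^ k ≤
      2 ^ (k - 1) * (1 ^ k + (∑ i ∈ S N, w i) ^ k) := fun N _ =>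
    add_pow_le zero_le_one (sum_nonneg fun i _ => hw.nn i) k
  refine (sum_le_sum h2).trans ?_
  rw [← mul_sum, sum_add_distrib, sum_const, Nat.card_Icc, Nat.add_sub_cancel, one_pow,
    nsmul_eq_mul, mul_one, mul_assoc, add_mul, one_mul]
  exact mul_le_mul_of_nonneg_left (by linarith [h1 X]) (by positivity)

end Pool.Agent.L0h51.AB
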