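import Mathlib

/-! Families of moduli with few members: sums, moments and densities of sets of multiples. -/

set_option autoImplicit false
set_option maxHeartbeats 400000

namespace Pool.Agent.L0h51.AB

open Finset Filter Topology

/-- at most `D X ^ θ` of the moduli are at most `X` -/
structure Few {ι : Type} (m : ι → ℕ) (D θ : ℝ) : Prop where
  pos : ∀ i, 0 < m i
  D0 : 0 < D
  θ0 : 0 ≤ θ
  cnt : ∀ X : ℝ, 1 ≤ X → ∀ F : Finset ι, (∀ i ∈ F, (m i : ℝ) ≤ X) → (#F : ℝ) ≤ D * X ^ θ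

variable {ι : Type} {m : ι → ℕ} {D θ : ℝ}

theorem Few.fin (h : Few m D θ) (X : ℝ) : {i | (m i : ℝ) ≤ X}.Finite := by
  by_contra hinf
  obtain ⟨F, hF, hFc⟩ := Set.Infinite.exists_subset_card_eq hinf (⌊D * (max X 1) ^ θ⌋₊ + 1)
  have h1 := h.cnt (max X 1) (le_max_right _ _) F (fun i hi => (hF hi).trans (le_max_left _ _))
  rw [hFc] at h1
  have h2 := Nat.lt_floor_add_one (D * (max X 1) ^ θ)
  push_cast at h1
  linarith

theorem Few.fin_dvd (h : Few m D θ) {N : ℕ} (hN : 0 < N) : {i | m i ∣ N}.Finite := by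
  refine (h.fin N).subset fun i hi => ?_
  have : m i ≤ N := Nat.le_of_dvd hN hi
  exact_mod_cast this

theorem Few.summable (h : Few m D θ) {s : ℝ} (hs : θ < s) :
    Summable fun i => (m i : ℝ) ^ (-s) := by
  classical
  have hs0 : 0 < s := lt_of_le_of_lt h.θ0 hs
  have hr0 : (0 : ℝ) < 2 ^ (θ - s) := Real.rpow_pos_of_pos (by norm_num) _
  have hr1 : (2 : ℝ) ^ (θ - s) < 1 := Real.rpow_lt_one_of_one_lt_of_neg (by norm_num) (by linarith)
  have hg := (summable_geometric_of_lt_one hr0.le hr1).mul_left (D * 2 ^ θ)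
  refine summable_of_sum_le (c := ∑' j : ℕ, D * 2 ^ θ * ((2 : ℝ) ^ (θ - s)) ^ j)
    (fun i => Real.rpow_nonneg (Nat.cast_nonneg _) _) fun F => ?_
  have hmaps : ∀ i ∈ F, Nat.log 2 (m i) ∈ F.image (fun i => Nat.log 2 (m i)) :=
    fun i hi => mem_image_of_mem _ hi
  rw [← sum_fiberwise_of_maps_to hmaps]
  refine le_trans (sum_le_sum (g := fun j => D * 2 ^ θ * ((2 : ℝ) ^ (θ - s)) ^ j) fun j _ => ?_)
    (hg.sum_le_tsum _ fun j _ => by have := h.D0; positivity)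
  have hj : ∀ i ∈ F.filter (fun i => Nat.log 2 (m i) = j), (m i : ℝ) ^ (-s) ≤ ((2 : ℝ) ^ j) ^ (-s) := by
    intro i hi
    rw [mem_filter] at hi
    have h1 : 2 ^ j ≤ m i := by
      rw [← hi.2]
      exact Nat.pow_log_le_self 2 (h.pos i).ne'
    have h2 : ((2 : ℝ) ^ j) ≤ (m i : ℝ) := by exact_mod_cast h1
    rw [Real.rpow_neg (by positivity), Real.rpow_neg (by positivity)]
    exact inv_anti₀ (by positivity) (Real.rpow_le_rpow (by positivity) h2 hs0.le)
  refine (sum_le_sum hj).trans ?_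
  rw [sum_const, nsmul_eq_mul]
  have h3 := h.cnt ((2 : ℝ) ^ (j + 1)) (one_le_pow₀ (by norm_num))
    (F.filter (fun i => Nat.log 2 (m i) = j)) (fun i hi => by
      rw [mem_filter] at hi
      have h1 : m i < 2 ^ (j + 1) := by
        rw [← hi.2]
        exact Nat.lt_pow_succ_log_self (by norm_num) _
      exact_mod_cast h1.le)
  calc (#(F.filter (fun i => Nat.log 2 (m i) = j)) : ℝ) * ((2 : ℝ) ^ j) ^ (-s) ≤
      (D * ((2 : ℝ) ^ (j + 1)) ^ θ) * ((2 : ℝ) ^ j) ^ (-s) :=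
        mul_le_mul_of_nonneg_right h3 (by positivity)
    _ = D * 2 ^ θ * ((2 : ℝ) ^ (θ - s)) ^ j := by
        have e1 : ((2 : ℝ) ^ (j + 1)) ^ θ = 2 ^ θ * ((2 : ℝ) ^ j) ^ θ := by
          rw [pow_succ, Real.mul_rpow (by positivity) (by norm_num), mul_comm]
        have e2 : ((2 : ℝ) ^ j) ^ θ * ((2 : ℝ) ^ j) ^ (-s) = ((2 : ℝ) ^ (θ - s)) ^ j := by
          rw [← Real.rpow_add (by positivity), ← Real.rpow_natCast (2 ^ (θ - s)) j,
            ← Real.rpow_mul (by norm_num), ← Real.rpow_natCast 2 j, ← Real.rpow_mul (by norm_num)]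
          congr 1
          ring
        rw [e1, ← e2]
        ring
    _ ≤ _ := le_rfl

theorem Few.summable_inv (h : Few m D θ) (hθ : θ < 1) : Summable fun i => ((m i : ℝ))⁻¹ := by
  have := h.summable hθ
  refine this.congr fun i => ?_
  rw [Real.rpow_neg_one]

/-- The tail of the sum. -/
theorem Few.tail (h : Few m D θ) {s : ℝ} (hs : θ < s) (hs1 : s ≤ 1) {R : ℝ} (hR : 0 < R)
    (F : Finset ι) (hF : ∀ i ∈ F, R < m i) :
    ∑ i ∈ F, ((m i : ℝ))⁻¹ ≤ R ^ (-(1 - s)) * ∑' i, (m i : ℝ) ^ (-s) := by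
  have h1 : ∀ i ∈ F, ((m i : ℝ))⁻¹ ≤ R ^ (-(1 - s)) * (m i : ℝ) ^ (-s) := by
    intro i hi
    have hm : (0 : ℝ) < m i := by exact_mod_cast h.pos i
    have e1 : ((m i : ℝ))⁻¹ = (m i : ℝ) ^ (-(1 - s)) * (m i : ℝ) ^ (-s) := by
      rw [← Real.rpow_add hm, ← Real.rpow_neg_one]
      congr 1
      ring
    rw [e1]
    refine mul_le_mul_of_nonneg_right ?_ (by positivity)
    rw [Real.rpow_neg hm.le, Real.rpow_neg hR.le]
    exact inv_anti₀ (by positivity) (Real.rpow_le_rpow hR.le (hF i hi).le (by linarith))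
  refine (sum_le_sum h1).trans ?_
  rw [← mul_sum]
  exact mul_le_mul_of_nonneg_left ((h.summable hs).sum_le_tsum F fun i _ => by positivity)
    (by positivity)

/-- the number of `N ≤ X` which are divisible by one of the moduli -/
theorem card_mult_le (F : Finset ι) (X : ℕ) :
    (#((Icc 1 X).filter (fun N => ∃ i ∈ F, m i ∣ N)) : ℝ) ≤ X * ∑ i ∈ F, ((m i : ℝ))⁻¹ := by
  classical
  have h1 : (Icc 1 X).filter (fun N => ∃ i ∈ F, m i ∣ N) ⊆
      F.biUnion (fun i => (Icc 1 X).filter (fun N => m i ∣ N)) := by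
    intro N hN
    rw [mem_filter] at hN
    obtain ⟨h1, i, hi, h2⟩ := hN
    rw [mem_biUnion]
    exact ⟨i, hi, mem_filter.2 ⟨h1, h2⟩⟩
  have h2 : ∀ i ∈ F, (#((Icc 1 X).filter (fun N => m i ∣ N)) : ℝ) ≤ X * ((m i : ℝ))⁻¹ := by
    intro i _
    have e1 : (Icc 1 X).filter (fun N => m i ∣ N) = (Ioc 0 X).filter (fun N => m i ∣ N) := by
      congr 1
    rw [e1, Nat.Ioc_filter_dvd_card_eq_div, ← div_eq_mul_inv]
    exact Nat.cast_div_le
  calc (#((Icc 1 X).filter (fun N => ∃ i ∈ F, m i ∣ N)) : ℝ) ≤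
      ((∑ i ∈ F, #((Icc 1 X).filter (fun N => m i ∣ N)) : ℕ) : ℝ) := by
        exact_mod_cast (card_le_card h1).trans card_biUnion_le
    _ ≤ ∑ i ∈ F, X * ((m i : ℝ))⁻¹ := by
        push_cast
        exact sum_le_sum h2
    _ = _ := by rw [mul_sum]

open Classical in
/-- The same for an infinite family. -/
theorem Few.card_le (h : Few m D θ) (hθ : θ < 1) (J : Set ι) (X : ℕ) :
    (#((Icc 1 X).filter (fun N => ∃ i ∈ J, m i ∣ N)) : ℝ) ≤
      X * ∑' i : J, ((m i : ℝ))⁻¹ := by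
  have hfin := h.fin (X : ℝ)
  set F : Finset ι := hfin.toFinset.filter (· ∈ J) with hF
  have h1 : (Icc 1 X).filter (fun N => ∃ i ∈ J, m i ∣ N) =
      (Icc 1 X).filter (fun N => ∃ i ∈ F, m i ∣ N) := by
    ext N
    rw [mem_filter, mem_filter]
    refine and_congr_right fun hN => ?_
    rw [mem_Icc] at hN
    constructor
    · rintro ⟨i, hi, hd⟩
      refine ⟨i, ?_, hd⟩
      rw [hF, mem_filter, Set.Finite.mem_toFinset]
      refine ⟨?_, hi⟩
      have : m i ≤ X := (Nat.le_of_dvd hN.1 hd).trans hN.2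
      change (m i : ℝ) ≤ X
      exact_mod_cast this
    · rintro ⟨i, hi, hd⟩
      rw [hF, mem_filter] at hi
      exact ⟨i, hi.2, hd⟩
  rw [h1]
  refine (card_mult_le F X).trans ?_
  refine mul_le_mul_of_nonneg_left ?_ (Nat.cast_nonneg _)
  have h2 : ∑ i ∈ F, ((m i : ℝ))⁻¹ = ∑ i ∈ F.subtype (· ∈ J), ((m i : ℝ))⁻¹ := by
    have h3 := Finset.sum_subtype_eq_sum_filter (s := F) (p := (· ∈ J)) (fun i => ((m i : ℝ))⁻¹)
    rw [h3, filter_eq_self.2]
    intro i hi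
    rw [hF, mem_filter] at hi
    exact hi.2
  rw [h2]
  exact ((h.summable_inv hθ).subtype J).sum_le_tsum _ fun i _ => by positivity

end Pool.Agent.L0h51.AB
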