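import Pool.Agent.TH867.EC.Heights
import Pool.Agent.Helper924.MW.Lower

/-! Rational numbers `t ≠ 0, 1` and the triples `a + b = c`. -/

set_option autoImplicit false
set_option maxHeartbeats 400000

namespace Pool.Agent.L0h51.AB

open Finset
open Pool.Agent.TH867.SR (Tr N3 rr rr_sum log_prod_primes)

/-- the three members -/
def xx (t : ℚ) : ℕ := t.num.natAbs
def yy (t : ℚ) : ℕ := ((t.den : ℤ) - t.num).natAbs
def zz (t : ℚ) : ℕ := t.den

/-- the product of the primes which divide one of the three members -/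
def rad3 (t : ℚ) : ℕ := ∏ p ∈ (xx t * yy t * zz t).primeFactors, p

theorem xx_pos {t : ℚ} (h : t ≠ 0) : 0 < xx t := Int.natAbs_pos.2 (Rat.num_ne_zero.2 h)

theorem yy_pos {t : ℚ} (h : t ≠ 1) : 0 < yy t := by
  refine Int.natAbs_pos.2 fun h1 => h ?_
  have h2 : t.num = t.den := by omega
  rw [← Rat.num_div_den t, h2]
  have h3 : (t.den : ℚ) ≠ 0 := by exact_mod_cast t.den_nz
  push_cast
  exact div_self h3

theorem zz_pos (t : ℚ) : 0 < zz t := t.pos

theorem exists_tri {t : ℚ} (h0 : t ≠ 0) (h1 : t ≠ 1) : ∃ s : Fin 3 → ℕ, Tr s ∧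
    N3 s = xx t * yy t * zz t ∧ xx t ∈ univ.image s ∧ yy t ∈ univ.image s ∧ zz t ∈ univ.image s := by
  have hx := xx_pos h0
  have hy := yy_pos h1
  have hz := zz_pos t
  have hcop : Nat.Coprime (xx t) (zz t) := t.reduced
  have hcy : Nat.Coprime (yy t) (zz t) := by
    unfold yy zz
    rw [← Int.natAbs_neg, neg_sub]
    have h2 : IsCoprime (t.num - (t.den : ℤ)) (t.den : ℤ) := by
      have h3 : IsCoprime t.num (t.den : ℤ) := by
        rw [Int.isCoprime_iff_gcd_eq_one]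
        exact t.reduced
      have h4 := h3.add_mul_right_left (-1)
      have h5 : t.num + (t.den : ℤ) * (-1) = t.num - (t.den : ℤ) := by ring
      rw [mul_comm] at h5
      rwa [← h5]
    rw [Int.isCoprime_iff_gcd_eq_one] at h2
    exact h2
  have hxy : Nat.Coprime (xx t) (yy t) := by
    unfold xx yy
    have h2 : IsCoprime t.num ((t.den : ℤ) - t.num) := by
      have h3 : IsCoprime t.num (t.den : ℤ) := by
        rw [Int.isCoprime_iff_gcd_eq_one]
        exact t.reduced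
      have h4 := h3.add_mul_left_right (-1)
      have h5 : (t.den : ℤ) + t.num * (-1) = (t.den : ℤ) - t.num := by ring
      rwa [h5] at h4
    rw [Int.isCoprime_iff_gcd_eq_one] at h2
    exact h2
  -- one of the three is the sum of the other two
  have hsum : zz t = xx t + yy t ∨ xx t = yy t + zz t ∨ yy t = xx t + zz t := by
    unfold xx yy zz
    omega
  have key : ∀ a b : ℕ, 0 < a → 0 < b → Nat.Coprime a b → ∃ s : Fin 3 → ℕ, Tr s ∧
      N3 s = a * b * (a + b) ∧ a ∈ univ.image s ∧ b ∈ univ.image s ∧ a + b ∈ univ.image s := by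
    intro a b ha hb hab
    rcases le_total a b with h2 | h2
    · refine ⟨![a, b, a + b], ⟨ha, h2, hab, rfl⟩, rfl, ?_, ?_, ?_⟩
      · exact mem_image.2 ⟨0, mem_univ _, rfl⟩
      · exact mem_image.2 ⟨1, mem_univ _, rfl⟩
      · exact mem_image.2 ⟨2, mem_univ _, rfl⟩
    · refine ⟨![b, a, b + a], ⟨hb, h2, hab.symm, rfl⟩, ?_, ?_, ?_, ?_⟩
      · show b * a * (b + a) = a * b * (a + b)
        ring
      · exact mem_image.2 ⟨1, mem_univ _, rfl⟩
      · exact mem_image.2 ⟨0, mem_univ _, rfl⟩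
      · exact mem_image.2 ⟨2, mem_univ _, by show b + a = a + b; ring⟩
  rcases hsum with h2 | h2 | h2
  · obtain ⟨s, k1, k2, k3, k4, k5⟩ := key _ _ hx hy hxy
    refine ⟨s, k1, ?_, k3, k4, ?_⟩
    · rw [k2, ← h2]
    · rw [h2]
      exact k5
  · obtain ⟨s, k1, k2, k3, k4, k5⟩ := key _ _ hy hz hcy
    refine ⟨s, k1, ?_, ?_, k3, k4⟩
    · rw [k2, ← h2]
      ring
    · rw [h2]
      exact k5
  · obtain ⟨s, k1, k2, k3, k4, k5⟩ := key _ _ hx hz hcop
    refine ⟨s, k1, ?_, k3, ?_, k4⟩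
    · rw [k2, ← h2]
      ring
    · rw [h2]
      exact k5

/-- the triple of a rational number -/
noncomputable def tri (t : ℚ) : Fin 3 → ℕ := by
  classical exact if h : t ≠ 0 ∧ t ≠ 1 then (exists_tri h.1 h.2).choose else fun _ => 0

theorem tri_spec {t : ℚ} (h0 : t ≠ 0) (h1 : t ≠ 1) : Tr (tri t) ∧
    N3 (tri t) = xx t * yy t * zz t ∧ xx t ∈ univ.image (tri t) ∧ yy t ∈ univ.image (tri t) ∧
      zz t ∈ univ.image (tri t) := by
  unfold tri
  rw [dif_pos ⟨h0, h1⟩]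
  exact (exists_tri h0 h1).choose_spec

theorem inj3 {s t : ℚ} (h1 : xx s = xx t) (h2 : yy s = yy t) (h3 : zz s = zz t) : s = t := by
  unfold xx yy zz at *
  have hs := s.pos
  have ht := t.pos
  apply Rat.ext
  · omega
  · exact h3

open Classical in
theorem fiber_le (T : Finset ℚ) (hT : ∀ t ∈ T, t ≠ 0 ∧ t ≠ 1) :
    T.card ≤ 27 * (T.image tri).card := by
  refine card_le_mul_card_image T 27 fun s _ => ?_
  have h1 : (univ.image s).card ≤ 3 := card_image_le.trans (by simp)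
  have h2 : ((T.filter fun t => tri t = s).image fun t => (xx t, yy t, zz t)) ⊆
      (univ.image s) ×ˢ (univ.image s) ×ˢ (univ.image s) := by
    intro p hp
    rw [mem_image] at hp
    obtain ⟨t, ht, rfl⟩ := hp
    rw [mem_filter] at ht
    obtain ⟨ht1, ht2⟩ := ht
    obtain ⟨-, -, k1, k2, k3⟩ := tri_spec (hT t ht1).1 (hT t ht1).2
    rw [ht2] at k1 k2 k3
    exact mem_product.2 ⟨k1, mem_product.2 ⟨k2, k3⟩⟩
  have h3 := card_le_card h2
  rw [card_image_of_injOn] at h3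
  · rw [card_product, card_product] at h3
    refine h3.trans ?_
    calc #(univ.image s) * (#(univ.image s) * #(univ.image s)) ≤ 3 * (3 * 3) :=
          Nat.mul_le_mul h1 (Nat.mul_le_mul h1 h1)
      _ = 27 := by norm_num
  · intro a _ b _ hab
    rw [Prod.mk.injEq, Prod.mk.injEq] at hab
    exact inj3 hab.1 hab.2.1 hab.2.2

theorem rr_tri {t : ℚ} (h0 : t ≠ 0) (h1 : t ≠ 1) :
    rr (tri t) 0 + rr (tri t) 1 + rr (tri t) 2 = Real.log (rad3 t) := by
  obtain ⟨k1, k2, -⟩ := tri_spec h0 h1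
  rw [← rr_sum k1, ← log_prod_primes fun q hq => Nat.prime_of_mem_primeFactors hq, k2]
  rfl

theorem rad3_pos (t : ℚ) : 0 < rad3 t :=
  prod_pos fun _ hq => (Nat.prime_of_mem_primeFactors hq).pos

/-- the number of `t` of bounded radical, of all heights -/
theorem cnt3 (ε : ℝ) (hε : 0 < ε) : ∃ D : ℝ, 0 < D ∧ ∀ X : ℝ, 1 ≤ X → ∀ T : Finset ℚ,
    (∀ t ∈ T, (t ≠ 0 ∧ t ≠ 1) ∧ (rad3 t : ℝ) ≤ X) → (T.card : ℝ) ≤ D * X ^ (2 / 3 + ε) := by
  classical
  obtain ⟨D, hD, h⟩ := Pool.Agent.TH867.SB.all_heights ε hε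
  refine ⟨27 * D, by positivity, fun X hX T hT => ?_⟩
  have h1 := h X hX (T.image tri) (fun s hs => by
    obtain ⟨t, ht, rfl⟩ := mem_image.1 hs
    obtain ⟨⟨h0, h1⟩, h2⟩ := hT t ht
    refine ⟨(tri_spec h0 h1).1, ?_⟩
    rw [rr_tri h0 h1]
    exact Real.log_le_log (by exact_mod_cast rad3_pos t) h2)
  have h2 : (T.card : ℝ) ≤ 27 * ((T.image tri).card : ℝ) := by
    exact_mod_cast fiber_le T fun t ht => (hT t ht).1
  linarith

/-- the number of `t` whose radical divides a given integer -/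
theorem div3 (ε : ℝ) (hε : 0 < ε) : ∃ C : ℝ, 1 ≤ C ∧ ∀ N : ℕ, 0 < N → ∀ T : Finset ℚ,
    (∀ t ∈ T, (t ≠ 0 ∧ t ≠ 1) ∧ rad3 t ∣ N) → (T.card : ℝ) ≤ C * (N : ℝ) ^ ε := by
  classical
  obtain ⟨D, hD, h⟩ := Pool.Agent.TH867.SB.by_radical (ε / 2) (by positivity)
  obtain ⟨K, hK⟩ : ∃ K : ℕ, 2 / ε ≤ K := exists_nat_ge _
  have hK0 : (0 : ℝ) < K := lt_of_lt_of_le (by positivity) hK
  have hK1 : 0 < K := by exact_mod_cast hK0
  obtain ⟨C, hC, hdiv⟩ := Pool.Agent.Helper924.MW.Lower.exists_divisor_bound K hK1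
  refine ⟨27 * (D * C) + 1, ?_, fun N hN T hT => ?_⟩
  · have : (0 : ℝ) ≤ C := Nat.cast_nonneg _
    nlinarith [mul_nonneg hD.le this]
  have hN1 : (1 : ℝ) ≤ N := by exact_mod_cast hN
  have hN0 : (0 : ℝ) < N := by linarith
  have hCr : (1 : ℝ) ≤ C := by exact_mod_cast hC
  have h1 := h N hN1 N.divisors (Nat.one_mem_divisors.2 hN.ne') (fun m hm => by
    rw [Nat.mem_divisors] at hm
    refine ⟨Nat.pos_of_dvd_of_pos hm.1 hN, ?_⟩
    exact_mod_cast Nat.le_of_dvd hN hm.1) (T.image tri) (fun s hs => by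
    obtain ⟨t, ht, rfl⟩ := mem_image.1 hs
    obtain ⟨⟨h0, h1⟩, h2⟩ := hT t ht
    refine ⟨(tri_spec h0 h1).1, rad3 t, Nat.mem_divisors.2 ⟨h2, hN.ne'⟩, ?_⟩
    rw [(tri_spec h0 h1).2.1]
    exact Nat.primeFactors_prod fun _ hq => Nat.prime_of_mem_primeFactors hq)
  have h2 : (T.card : ℝ) ≤ 27 * ((T.image tri).card : ℝ) := by
    exact_mod_cast fiber_le T fun t ht => (hT t ht).1
  have h3 : (N.divisors.card : ℝ) ≤ C * (N : ℝ) ^ (ε / 2) := by
    have h4 : ((N.divisors.card : ℝ)) ^ K ≤ C * N := by exact_mod_cast hdiv N hN.ne'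
    have h5 : (N.divisors.card : ℝ) ≤ (C * N : ℝ) ^ (1 / (K : ℝ)) := by
      have h6 : (N.divisors.card : ℝ) = ((N.divisors.card : ℝ) ^ K) ^ (1 / (K : ℝ)) := by
        rw [← Real.rpow_natCast, ← Real.rpow_mul (Nat.cast_nonneg _), mul_one_div, div_self hK0.ne',
          Real.rpow_one]
      rw [h6]
      exact Real.rpow_le_rpow (pow_nonneg (Nat.cast_nonneg _) _) h4 (one_div_nonneg.2 hK0.le)
    refine h5.trans ?_
    rw [Real.mul_rpow (by linarith) hN0.le]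
    have h7 : (C : ℝ) ^ (1 / (K : ℝ)) ≤ C := by
      calc (C : ℝ) ^ (1 / (K : ℝ)) ≤ (C : ℝ) ^ (1 : ℝ) := by
            refine Real.rpow_le_rpow_of_exponent_le hCr ?_
            rw [div_le_one hK0]
            exact_mod_cast hK1
        _ = C := Real.rpow_one _
    have h8 : (N : ℝ) ^ (1 / (K : ℝ)) ≤ (N : ℝ) ^ (ε / 2) := by
      refine Real.rpow_le_rpow_of_exponent_le hN1 ?_
      rw [div_le_div_iff₀ hK0 (by norm_num)]
      rw [div_le_iff₀ hε] at hK
      linarith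
    exact mul_le_mul h7 h8 (by positivity) (by linarith)
  have h9 : (N : ℝ) ^ (ε / 2) * (N : ℝ) ^ (ε / 2) = (N : ℝ) ^ ε := by
    rw [← Real.rpow_add hN0]
    congr 1
    ring
  calc (T.card : ℝ) ≤ 27 * ((T.image tri).card : ℝ) := h2
    _ ≤ 27 * (D * N.divisors.card * (N : ℝ) ^ (ε / 2)) := by linarith
    _ ≤ 27 * (D * (C * (N : ℝ) ^ (ε / 2)) * (N : ℝ) ^ (ε / 2)) := by
        have := mul_le_mul_of_nonneg_right (mul_le_mul_of_nonneg_left h3 hD.le)
          (Real.rpow_nonneg hN0.le (ε / 2))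
        linarith
    _ = 27 * (D * C) * ((N : ℝ) ^ (ε / 2) * (N : ℝ) ^ (ε / 2)) := by ring
    _ = 27 * (D * C) * (N : ℝ) ^ ε := by rw [h9]
    _ ≤ (27 * (D * C) + 1) * (N : ℝ) ^ ε := by
        have : 0 ≤ (N : ℝ) ^ ε := Real.rpow_nonneg hN0.le _
        linarith

/-- the height in terms of the radical -/
theorem height3 {t : ℚ} (h0 : t ≠ 0) (h1 : t ≠ 1) {X : ℝ} (hX : 1 ≤ X) (hr : (rad3 t : ℝ) ≤ X) :
    Real.log (max (xx t) (zz t) : ℕ) ≤ Real.exp (3000 * (1 + Real.log X) ^ 6) := by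
  obtain ⟨k1, k2, k3, k4, k5⟩ := tri_spec h0 h1
  have h2 := Pool.Agent.TH867.SM.height_le k1 hX (by
    rw [rr_tri h0 h1]
    exact Real.log_le_log (by exact_mod_cast rad3_pos t) hr)
  refine le_trans ?_ h2
  have h3 : ∀ n ∈ univ.image (tri t), n ≤ tri t 2 := by
    intro n hn
    obtain ⟨j, -, rfl⟩ := mem_image.1 hn
    exact k1.le2 j
  refine Real.log_le_log ?_ ?_
  · exact_mod_cast lt_of_lt_of_le (zz_pos t) (le_max_right _ _)
  · exact_mod_cast max_le (h3 _ k3) (h3 _ k5)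

end Pool.Agent.L0h51.AB
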